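import Mathlib

/-!
Letters, the allowed pairs and the space `Zs` of two-letter block sequences.
-/

set_option autoImplicit false
set_option linter.unusedSectionVars false

open Set Filter Topology Function OnePoint

namespace Pool.Agent.X219.CH

/-- tuples with a symbol -/
abbrev Tup : Type := Σ ρ : ℕ × ℕ, (Fin ρ.2 → ℕ)

/-- the letters: vertices and tuples with a flag -/
inductive Ltr : Type
  | v (n : ℕ) : Ltr
  | t (a : Tup) (i : Bool) : Ltr

instance : TopologicalSpace Ltr := ⊥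
instance : DiscreteTopology Ltr := ⟨rfl⟩

/-- an injection into a sum -/
def Ltr.code : Ltr → ℕ ⊕ (Tup × Bool)
  | Ltr.v n => Sum.inl n
  | Ltr.t a i => Sum.inr (a, i)

theorem Ltr.code_injective : Injective Ltr.code := by
  rintro (n | ⟨a, i⟩) (m | ⟨b, j⟩) h
  · simp only [Ltr.code, Sum.inl.injEq] at h
    rw [h]
  · simp [Ltr.code] at h
  · simp [Ltr.code] at h
  · simp only [Ltr.code, Sum.inr.injEq, Prod.mk.injEq] at h
    rw [h.1, h.2]

instance : Countable Ltr := Ltr.code_injective.countable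

instance : Infinite Ltr := Infinite.of_injective Ltr.v (fun a b h => by injection h)

/-- the alphabet -/
abbrev A : Type := OnePoint Ltr

/-- the sort of a letter -/
def sort : Ltr → ℕ
  | Ltr.v _ => 0
  | Ltr.t a _ => Nat.pair a.1.1 a.1.2 + 1

/-- incidence of a vertex and a tuple -/
def Inc (k : ℕ) (x y : Ltr) : Prop :=
  ∃ (n : ℕ) (a : Tup) (i : Bool), x = Ltr.v n ∧ y = Ltr.t a i ∧ ∃ h : k < a.1.2, a.2 ⟨k, h⟩ = n

theorem isClosed_of_mem {s : Set A} (h : (∞ : A) ∈ s) : IsClosed s :=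
  (OnePoint.isClosed_iff_of_mem h).2 (isClosed_discrete _)

theorem isOpen_of_notMem {s : Set A} (h : (∞ : A) ∉ s) : IsOpen s :=
  (OnePoint.isOpen_iff_of_notMem h).2 (isOpen_discrete _)

theorem isOpen_coe (x : Ltr) : IsOpen ({(x : A)} : Set A) :=
  isOpen_of_notMem (fun h => OnePoint.infty_ne_coe x h)

theorem isClosed_pair {P : Ltr → Ltr → Prop} :
    IsClosed {q : A × A | ∀ x y : Ltr, q.1 = x → q.2 = y → P x y} := by
  have h1 : {q : A × A | ∀ x y : Ltr, q.1 = x → q.2 = y → P x y} =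
      ⋂ x : Ltr, ⋂ y : Ltr, ⋂ _ : ¬ P x y, (({(x : A)} : Set A) ×ˢ ({(y : A)} : Set A))ᶜ := by
    ext q
    simp only [mem_ofPred_eq, mem_iInter, mem_compl_iff, mem_prod, mem_singleton_iff, not_and]
    constructor
    · intro h x y hP hx hy
      exact hP (h x y hx hy)
    · intro h x y hx hy
      by_contra hP
      exact h x y hP hx hy
  rw [h1]
  exact isClosed_iInter fun x => isClosed_iInter fun y => isClosed_iInter fun _ =>
    ((isOpen_coe x).prod (isOpen_coe y)).isClosed_compl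

/-- the allowed pairs of colour `c` -/
def Al (c : ℕ) : Set (A × A) :=
  if c % 2 = 0 then {q | q.2 = ∞ ∧ ∀ x : Ltr, q.1 = x → sort x = c / 2}
  else {q | ∀ x y : Ltr, q.1 = x → q.2 = y → Inc (c / 2) x y}

theorem isClosed_Al (c : ℕ) : IsClosed (Al c) := by
  unfold Al
  split_ifs with h
  · have h1 : IsClosed {a : A | ∀ x : Ltr, a = x → sort x = c / 2} := by
      apply isClosed_of_mem
      intro x hx
      exact absurd hx (OnePoint.infty_ne_coe x)
    exact (isClosed_singleton.preimage continuous_snd).inter (h1.preimage continuous_fst)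
  · exact isClosed_pair

/-- the map of the alphabet induced by a bijection of the letters -/
def em (e : Ltr ≃ Ltr) : A ≃ₜ A :=
  Homeomorph.onePointCongr (e.toHomeomorph (fun _ => by simp [isOpen_discrete]))

@[simp] theorem em_coe (e : Ltr ≃ Ltr) (x : Ltr) : em e (x : A) = (e x : A) := rfl

@[simp] theorem em_infty (e : Ltr ≃ Ltr) : em e (∞ : A) = ∞ := rfl

theorem em_trans (e f : Ltr ≃ Ltr) (a : A) : em (e.trans f) a = em f (em e a) := by
  induction a using OnePoint.rec <;> rfl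

theorem em_refl (a : A) : em (Equiv.refl Ltr) a = a := by
  induction a using OnePoint.rec <;> rfl

theorem em_eq_coe {e : Ltr ≃ Ltr} {a : A} {x : Ltr} (h : em e a = x) :
    ∃ y : Ltr, a = y ∧ e y = x := by
  induction a using OnePoint.rec with
  | infty => exact absurd h (OnePoint.infty_ne_coe x)
  | coe y => exact ⟨y, rfl, OnePoint.coe_injective h⟩

/-- bijections of the letters which preserve sorts and incidence -/
def Gd (e : Ltr ≃ Ltr) : Prop :=
  (∀ x, sort (e x) = sort x) ∧ ∀ k x y, Inc k (e x) (e y) ↔ Inc k x y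

theorem Gd.refl : Gd (Equiv.refl Ltr) := ⟨fun _ => rfl, fun _ _ _ => Iff.rfl⟩

theorem Gd.trans {e f : Ltr ≃ Ltr} (he : Gd e) (hf : Gd f) : Gd (e.trans f) :=
  ⟨fun x => (hf.1 _).trans (he.1 x), fun k x y => (hf.2 k _ _).trans (he.2 k x y)⟩

theorem Gd.symm {e : Ltr ≃ Ltr} (he : Gd e) : Gd e.symm := by
  refine ⟨fun x => ?_, fun k x y => ?_⟩
  · have := he.1 (e.symm x)
    rw [e.apply_symm_apply] at this
    exact this.symm
  · have := he.2 k (e.symm x) (e.symm y)
    rw [e.apply_symm_apply, e.apply_symm_apply] at this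
    exact this.symm

theorem Gd.Al_mem {e : Ltr ≃ Ltr} (he : Gd e) {c : ℕ} {q : A × A} (hq : q ∈ Al c) :
    (em e q.1, em e q.2) ∈ Al c := by
  unfold Al at hq ⊢
  split_ifs at hq ⊢ with h
  · refine ⟨?_, fun x hx => ?_⟩
    · change em e q.2 = ∞
      rw [hq.1]; rfl
    · obtain ⟨y, hy, rfl⟩ := em_eq_coe hx
      rw [he.1]
      exact hq.2 y hy
  · intro x y hx hy
    obtain ⟨x', hx', rfl⟩ := em_eq_coe hx
    obtain ⟨y', hy', rfl⟩ := em_eq_coe hy
    rw [he.2]
    exact hq x' y' hx' hy'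

/-- the block sequences: blocks of length `2 ^ (p+1)` of two letters alternate -/
def blk (q : A × A) (p : ℕ) (n : ℤ) : A := if (n / 2 ^ (p + 1)) % 2 = 0 then q.1 else q.2

theorem blk_add_mul (q : A × A) (p : ℕ) (n k : ℤ) : blk q p (n + k * 2 ^ (p + 2)) = blk q p n := by
  unfold blk
  have h1 : (n + k * 2 ^ (p + 2)) / 2 ^ (p + 1) = n / 2 ^ (p + 1) + 2 * k := by
    have : n + k * 2 ^ (p + 2) = n + (2 * k) * 2 ^ (p + 1) := by ring
    rw [this, Int.add_mul_ediv_right _ _ (by positivity)]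
  rw [h1]
  have h2 : (n / 2 ^ (p + 1) + 2 * k) % 2 = (n / 2 ^ (p + 1)) % 2 := by omega
  rw [h2]

theorem blk_mod (q : A × A) (p : ℕ) (n : ℤ) : blk q p (n % 2 ^ (p + 2)) = blk q p n := by
  have h := blk_add_mul q p (n % 2 ^ (p + 2)) (n / 2 ^ (p + 2))
  rw [← h]
  congr 1
  have := Int.emod_add_mul_ediv n (2 ^ (p + 2))
  linarith

theorem blk_fst (q : A × A) (p : ℕ) {n : ℤ} (h0 : 0 ≤ n) (h1 : n < 2 ^ (p + 1)) :
    blk q p n = q.1 := by
  unfold blk
  rw [Int.ediv_eq_zero_of_lt h0 h1]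
  rfl

theorem blk_snd (q : A × A) (p : ℕ) {n : ℤ} (h0 : 2 ^ (p + 1) ≤ n) (h1 : n < 2 ^ (p + 2)) :
    blk q p n = q.2 := by
  unfold blk
  have h2 : n / 2 ^ (p + 1) = 1 := by
    have h3 : n = (n - 2 ^ (p + 1)) + 1 * 2 ^ (p + 1) := by ring
    rw [h3, Int.add_mul_ediv_right _ _ (by positivity), Int.ediv_eq_zero_of_lt (by linarith)]
    · rfl
    · have : (2 : ℤ) ^ (p + 2) = 2 * 2 ^ (p + 1) := by ring
      linarith
  rw [h2]
  rfl

theorem blk_mem (q : A × A) (p : ℕ) (n : ℤ) : blk q p n = q.1 ∨ blk q p n = q.2 := by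
  unfold blk
  split_ifs
  · exact Or.inl rfl
  · exact Or.inr rfl

/-- changes occur only at multiples of the block length -/
theorem dvd_of_blk_ne {q : A × A} {p : ℕ} {n : ℤ} (h : blk q p n ≠ blk q p (n + 1)) :
    (2 : ℤ) ^ (p + 1) ∣ n + 1 := by
  by_contra hd
  apply h
  have hH : (0 : ℤ) < 2 ^ (p + 1) := by positivity
  have h1 := Int.emod_add_mul_ediv n (2 ^ (p + 1))
  have h2 := Int.emod_nonneg n hH.ne'
  have h3 := Int.emod_lt_of_pos n hH
  have h4 : n % 2 ^ (p + 1) + 1 ≠ 2 ^ (p + 1) := by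
    intro h5
    apply hd
    refine ⟨n / 2 ^ (p + 1) + 1, ?_⟩
    nlinarith
  have h5 : (n + 1) / 2 ^ (p + 1) = n / 2 ^ (p + 1) := by
    have h6 : n + 1 = (n % 2 ^ (p + 1) + 1) + (n / 2 ^ (p + 1)) * 2 ^ (p + 1) := by linarith
    rw [h6, Int.add_mul_ediv_right _ _ hH.ne', Int.ediv_eq_zero_of_lt (by linarith) (by omega)]
    ring
  unfold blk
  rw [h5]

/-- the block sequences with block length `2 ^ (p+1)` -/
def Zp (p : ℕ) : Set (ℤ → A) := {u | ∃ t : ℤ, ∃ q ∈ Al (Nat.unpair p).1, u = fun n => blk q p (t + n)}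

theorem continuous_blk (p : ℕ) (t : ℤ) : Continuous fun q : A × A => fun n : ℤ => blk q p (t + n) := by
  refine continuous_pi fun n => ?_
  unfold blk
  split_ifs
  · exact continuous_fst
  · exact continuous_snd

theorem isClosed_Zp (p : ℕ) : IsClosed (Zp p) := by
  have h1 : Zp p = ⋃ t ∈ Finset.range (2 ^ (p + 2)),
      (fun q : A × A => fun n : ℤ => blk q p (t + n)) '' Al (Nat.unpair p).1 := by
    ext u
    simp only [Zp, mem_ofPred_eq, mem_iUnion, Finset.mem_range, exists_prop, mem_image]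
    constructor
    · rintro ⟨t, q, hq, rfl⟩
      have hH : (0 : ℤ) < 2 ^ (p + 2) := by positivity
      have h2 := Int.emod_nonneg t hH.ne'
      have h3 := Int.emod_lt_of_pos t hH
      refine ⟨(t % 2 ^ (p + 2)).toNat, ?_, q, hq, ?_⟩
      · zify
        rw [Int.toNat_of_nonneg h2]
        exact h3
      · funext n
        rw [Int.toNat_of_nonneg h2, ← blk_mod q p (t + n), ← blk_mod q p]
        congr 1
        rw [Int.add_emod, Int.emod_emod, ← Int.add_emod]
    · rintro ⟨t, -, q, hq, rfl⟩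
      exact ⟨t, q, hq, rfl⟩
  rw [h1]
  refine Set.Finite.isClosed_biUnion (Finset.finite_toSet _) fun t _ => ?_
  exact ((isClosed_Al _).isCompact.image (continuous_blk p t)).isClosed

/-- at most one change in the window -/
def Wn (N : ℤ) : Set (ℤ → A) :=
  {u | ∀ i j, -N ≤ i → i < j → j < N → u i = u (i + 1) ∨ u j = u (j + 1)}

/-- at most one change -/
def Wi : Set (ℤ → A) := {u | ∀ i j, i < j → u i = u (i + 1) ∨ u j = u (j + 1)}

theorem isClosed_Wn (N : ℤ) : IsClosed (Wn N) := by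
  simp only [Wn, Set.ofPred_forall]
  refine isClosed_iInter fun i => isClosed_iInter fun j => isClosed_iInter fun _ =>
    isClosed_iInter fun _ => isClosed_iInter fun _ => ?_
  have h (i : ℤ) : IsClosed {u : ℤ → A | u i = u (i + 1)} :=
    isClosed_eq (continuous_apply i) (continuous_apply (i + 1))
  exact (h i).union (h j)

/-- the block sequences and their limits -/
def Zs : Set (ℤ → A) := {u | (∃ p, u ∈ Zp p) ∨ u ∈ Wi}

theorem Zp_sub_Wn {p N : ℕ} (h : N ≤ p) : Zp p ⊆ Wn N := by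
  rintro _ ⟨t, q, -, rfl⟩ i j hi hij hj
  by_contra hcon
  push Not at hcon
  have h1 : (2 : ℤ) ^ (p + 1) ∣ (t + i) + 1 := dvd_of_blk_ne (by
    have := hcon.1
    rwa [← add_assoc] at this)
  have h2 : (2 : ℤ) ^ (p + 1) ∣ (t + j) + 1 := dvd_of_blk_ne (by
    have := hcon.2
    rwa [← add_assoc] at this)
  have h3 : (2 : ℤ) ^ (p + 1) ∣ j - i := by
    have := dvd_sub h2 h1
    have e : t + j + 1 - (t + i + 1) = j - i := by ring
    rwa [e] at this
  have h4 := Int.le_of_dvd (by linarith) h3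
  have h5 : p + 1 < 2 ^ (p + 1) := Nat.lt_two_pow_self
  have h6 : 2 * p < 2 ^ (p + 1) := by
    have h7 : p < 2 ^ p := Nat.lt_two_pow_self
    rw [pow_succ]; omega
  have h8 : ((2 * p : ℕ) : ℤ) < ((2 ^ (p + 1) : ℕ) : ℤ) := by exact_mod_cast h6
  push_cast at h8
  have h9 : (N : ℤ) ≤ p := by exact_mod_cast h
  linarith

theorem isClosed_Zs : IsClosed Zs := by
  have h1 : Zs = ⋂ N : ℕ, (Wn N ∪ ⋃ p ∈ Finset.range N, Zp p) := by
    ext u
    simp only [Zs, mem_ofPred_eq, mem_iInter, mem_union, mem_iUnion, Finset.mem_range,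
      exists_prop]
    constructor
    · rintro (⟨p, hp⟩ | hu) N
      · by_cases h : p < N
        · exact Or.inr ⟨p, h, hp⟩
        · exact Or.inl (Zp_sub_Wn (not_lt.1 h) hp)
      · exact Or.inl fun i j _ hij _ => hu i j hij
    · intro h
      by_cases hp : ∃ p, u ∈ Zp p
      · exact Or.inl hp
      · refine Or.inr fun i j hij => ?_
        have h2 := h (i.natAbs + j.natAbs + 1)
        rcases h2 with h2 | ⟨p, -, h3⟩
        · have e1 : (|i| : ℤ) = i.natAbs := Int.abs_eq_natAbs i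
          have e2 : (|j| : ℤ) = j.natAbs := Int.abs_eq_natAbs j
          exact h2 i j (by omega) hij (by omega)
        · exact absurd ⟨p, h3⟩ hp
  rw [h1]
  refine isClosed_iInter fun N => (isClosed_Wn _).union ?_
  exact Set.Finite.isClosed_biUnion (Finset.finite_toSet _) fun p _ => isClosed_Zp p

theorem const_mem (a : A) : (fun _ : ℤ => a) ∈ Zs := Or.inr fun _ _ _ => Or.inl rfl

theorem shift_mem {u : ℤ → A} (hu : u ∈ Zs) (m : ℤ) : (fun k => u (k + m)) ∈ Zs := by
  rcases hu with ⟨p, t, q, hq, rfl⟩ | hu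
  · refine Or.inl ⟨p, t + m, q, hq, ?_⟩
    funext n
    have e : t + (n + m) = t + m + n := by ring
    show blk q p (t + (n + m)) = blk q p (t + m + n)
    rw [e]
  · refine Or.inr fun i j hij => ?_
    have h := hu (i + m) (j + m) (by linarith)
    have e1 : i + 1 + m = i + m + 1 := by ring
    have e2 : j + 1 + m = j + m + 1 := by ring
    simp only [e1, e2]
    exact h

theorem em_mem {e : Ltr ≃ Ltr} (he : Gd e) {u : ℤ → A} (hu : u ∈ Zs) :
    (fun k => em e (u k)) ∈ Zs := by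
  rcases hu with ⟨p, t, q, hq, rfl⟩ | hu
  · refine Or.inl ⟨p, t, (em e q.1, em e q.2), he.Al_mem hq, ?_⟩
    funext n
    show em e (blk q p (t + n)) = blk (em e q.1, em e q.2) p (t + n)
    unfold blk
    split_ifs <;> rfl
  · refine Or.inr fun i j hij => ?_
    rcases hu i j hij with h | h
    · exact Or.inl (congrArg (em e) h)
    · exact Or.inr (congrArg (em e) h)

end Pool.Agent.X219.CH
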