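import Pool.Agent.X219.CH.Iso

/-!
The homeomorphism group of the Cantor space, measurability, and the reduction.
-/

set_option autoImplicit false
set_option linter.unusedSectionVars false

open Set Filter Topology Function OnePoint
open Pool.Agent.H468R2.MA (RS Iso)
open TopologicalSpace (Clopens)

namespace Pool.Agent.X219.CH

/-- the Cantor space -/
abbrev Can : Type := ℕ → Bool

/-- the topology of uniform convergence on the homeomorphisms of the Cantor space (the compact-open
topology) -/
@[reducible] def homeoTop : TopologicalSpace (Can ≃ₜ Can) :=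
  TopologicalSpace.induced (fun h => (⟨h, h.continuous⟩ : C(Can, Can))) inferInstance

/-- its Borel sets -/
@[reducible] def homeoBorel : MeasurableSpace (Can ≃ₜ Can) := @borel (Can ≃ₜ Can) homeoTop

attribute [local instance] homeoTop homeoBorel

/-- topological transitivity -/
def IsTrans (S : Can ≃ₜ Can) : Prop :=
  ∀ U V : Set Can, IsOpen U → IsOpen V → U.Nonempty → V.Nonempty →
    ∃ n : ℤ, ((⇑(S ^ n) '' U) ∩ V).Nonempty

instance countable_clopens : Countable (Clopens Can) :=
  TopologicalSpace.Clopens.countable_iff_secondCountable.2 inferInstance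

theorem measurable_homeo {Y : Type} [MeasurableSpace Y] {F : Y → (Can ≃ₜ Can)}
    (hF : ∀ x, Measurable fun y => F y x) : Measurable F := by
  have h0 : homeoBorel = (borel C(Can, Can)).comap
      (fun h : Can ≃ₜ Can => (⟨h, h.continuous⟩ : C(Can, Can))) := borel_comap
  rw [h0, measurable_comap_iff]
  have h1 : borel C(Can, Can) = MeasurableSpace.generateFrom
      (image2 (fun K U => {f : C(Can, Can) | MapsTo f K U}) {K | IsCompact K} {t | IsOpen t}) :=
    borel_eq_generateFrom_of_subbasis ContinuousMap.compactOpen_eq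
  rw [h1]
  refine measurable_generateFrom ?_
  rintro _ ⟨K, hK, U, hU, rfl⟩
  obtain ⟨D, hDc, hDd⟩ := TopologicalSpace.exists_countable_dense Can
  have h2 : (((fun h : Can ≃ₜ Can => (⟨h, h.continuous⟩ : C(Can, Can))) ∘ F) ⁻¹'
      {f : C(Can, Can) | MapsTo f K U}) =
      ⋃ W : Clopens Can, ⋃ _ : (W : Set Can) ⊆ U, ⋃ V : Clopens Can, ⋃ _ : K ⊆ (V : Set Can),
        ⋂ x ∈ D, ⋂ _ : x ∈ V, {y | F y x ∈ (W : Set Can)} := by
    ext y
    simp only [mem_preimage, comp_apply, mem_ofPred_eq, mem_iUnion, mem_iInter, exists_prop]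
    constructor
    · intro hm
      have h3 : IsClosed (F y '' K) := (hK.image (F y).continuous).isClosed
      obtain ⟨W, hW, hKW, hWU⟩ := exists_clopen_of_closed_subset_open h3 hU
        (by rintro _ ⟨x, hx, rfl⟩; exact hm hx)
      refine ⟨⟨W, hW⟩, hWU, ⟨F y ⁻¹' W, hW.preimage (F y).continuous⟩, ?_, ?_⟩
      · intro x hx
        exact hKW ⟨x, hx, rfl⟩
      · intro x _ hx
        exact hx
    · rintro ⟨W, hWU, V, hKV, h3⟩ x hx
      apply hWU
      show F y x ∈ (W : Set Can)
      have h4 : IsClosed (F y ⁻¹' (W : Set Can)) := W.isClopen.isClosed.preimage (F y).continuous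
      have h5 : (V : Set Can) ∩ D ⊆ F y ⁻¹' (W : Set Can) := fun z hz => h3 z hz.2 hz.1
      have h6 : (V : Set Can) ⊆ closure ((V : Set Can) ∩ D) :=
        hDd.open_subset_closure_inter V.isClopen.isOpen
      exact (h4.closure_subset_iff.2 h5) (h6 (hKV hx))
  rw [h2]
  refine MeasurableSet.iUnion fun W => MeasurableSet.iUnion fun _ => MeasurableSet.iUnion fun V =>
    MeasurableSet.iUnion fun _ => MeasurableSet.biInter hDc fun x _ => MeasurableSet.iInter fun _ => ?_
  exact hF x W.isClopen.isOpen.measurableSet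

/-- structures from families of truth values -/
def ofB (b : Tup → Bool) : RS (ℕ × ℕ) Prod.snd := fun r a => b ⟨r, a⟩ = true

open Classical in
/-- truth values of a structure -/
noncomputable def bits (y : RS (ℕ × ℕ) Prod.snd) : Tup → Bool := fun a => decide (y a.1 a.2)

theorem ofB_bits (y : RS (ℕ × ℕ) Prod.snd) : ofB (bits y) = y := by
  funext r a
  simp only [ofB, bits, decide_eq_true_eq]

open Classical in
theorem continuous_em_fl (a : A) : Continuous fun b : Tup → Bool => em (fl (ofB b)) a := by
  induction a using OnePoint.rec with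
  | infty => exact (continuous_const : Continuous fun _ : Tup → Bool => (∞ : A))
  | coe x =>
    rcases x with n | ⟨a, i⟩
    · exact (continuous_const : Continuous fun _ : Tup → Bool => (Ltr.v n : A))
    · let G : Bool → A := fun c => ((Ltr.t a (if c = true then !i else i) : Ltr) : A)
      have hG : Continuous G := continuous_of_discreteTopology
      have h1 : (fun b : Tup → Bool => em (fl (ofB b)) (Ltr.t a i : A)) = fun b => G (b a) := by
        funext b
        show ((Ltr.t a (if ofB b a.1 a.2 then !i else i) : Ltr) : A) = G (b a)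
        by_cases h : b a = true
        · have h' : ofB b a.1 a.2 := h
          simp only [G, if_pos h', if_pos h]
        · have h' : ¬ ofB b a.1 a.2 := h
          simp only [G, if_neg h', if_neg h]
      rw [h1]
      exact hG.comp (continuous_apply a)

theorem continuous_TS (x : X) : Continuous fun b : Tup → Bool => TS (ofB b) x :=
  continuous_rng (fun _ => continuous_const) (fun n k => continuous_em_fl (x.1.2 (n + 1) (k + 1)))

/-- a homeomorphism with the Cantor space -/
noncomputable def Φ : X ≃ₜ Can := exists_homeo.some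

/-- the homeomorphism of the Cantor space of a structure -/
noncomputable def TC (y : RS (ℕ × ℕ) Prod.snd) : Can ≃ₜ Can := (Φ.symm.trans (TS y)).trans Φ

theorem TC_apply (y : RS (ℕ × ℕ) Prod.snd) (x : Can) : TC y x = Φ (TS y (Φ.symm x)) := rfl

theorem TC_pow (y : RS (ℕ × ℕ) Prod.snd) (m : ℕ) (x : X) : (TC y ^ m) (Φ x) = Φ ((TS y)^[m] x) := by
  induction m with
  | zero => simp
  | succ m ih =>
    rw [pow_succ', Homeomorph.mul_apply, ih, TC_apply, Φ.symm_apply_apply, iterate_succ_apply']

theorem isTrans_TC (y : RS (ℕ × ℕ) Prod.snd) : IsTrans (TC y) := by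
  intro U V hU hV hUne hVne
  obtain ⟨m, x, hx, hx2⟩ := transitive (fl y) (Gd_fl y) (fl_fl y) (U := Φ ⁻¹' U) (V := Φ ⁻¹' V)
    (hU.preimage Φ.continuous) (hV.preimage Φ.continuous)
    (hUne.preimage Φ.surjective) (hVne.preimage Φ.surjective)
  refine ⟨m, Φ ((TS y)^[m] x), ⟨Φ x, hx, ?_⟩, hx2⟩
  rw [zpow_natCast, TC_pow]

theorem measurable_TC {Y : Type} [MeasurableSpace Y] {c : Y → RS (ℕ × ℕ) Prod.snd}
    (hc : ∀ (r : ℕ × ℕ) (a : Fin r.2 → ℕ), MeasurableSet {y | c y r a}) :
    Measurable fun y => TC (c y) := by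
  refine measurable_homeo fun x => ?_
  have h1 : Measurable fun y => bits (c y) := by
    refine measurable_pi_lambda _ fun a => ?_
    refine measurable_to_bool ?_
    have : (fun y => bits (c y) a) ⁻¹' {true} = {y | c y a.1 a.2} := by
      ext y
      simp [bits]
    rw [this]
    exact hc a.1 a.2
  have h2 : Continuous fun b : Tup → Bool => Φ (TS (ofB b) (Φ.symm x)) :=
    Φ.continuous.comp (continuous_TS _)
  have h3 : (fun y => TC (c y) x) = fun y => Φ (TS (ofB (bits (c y))) (Φ.symm x)) := by
    funext y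
    rw [ofB_bits, TC_apply]
  rw [h3]
  exact h2.measurable.comp h1

theorem conj_TC_iff (y z : RS (ℕ × ℕ) Prod.snd) :
    (∃ h : Can ≃ₜ Can, TC z = h * TC y * h⁻¹) ↔ Iso y z := by
  rw [← conj_iff]
  constructor
  · rintro ⟨h, hh⟩
    refine ⟨(Φ.trans h).trans Φ.symm, fun x => ?_⟩
    have h1 : TC z (h (Φ x)) = h (TC y (Φ x)) := by
      rw [hh]
      simp
    rw [TC_apply, TC_apply, Φ.symm_apply_apply] at h1
    show Φ.symm (h (Φ (TS y x))) = TS z (Φ.symm (h (Φ x)))
    rw [← h1, Φ.symm_apply_apply]
  · rintro ⟨g, hg⟩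
    refine ⟨(Φ.symm.trans g).trans Φ, ?_⟩
    rw [eq_mul_inv_iff_mul_eq]
    ext1 x
    show TC z (Φ (g (Φ.symm x))) = Φ (g (Φ.symm (TC y x)))
    rw [TC_apply, TC_apply, Φ.symm_apply_apply, Φ.symm_apply_apply, hg]

end Pool.Agent.X219.CH
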