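import Pool.Agent.X219.CH.Rec
import Pool.Agent.X219.Sinf.Code

/-!
The homeomorphism of a countable structure; conjugacy is isomorphism.
-/

set_option autoImplicit false
set_option linter.unusedSectionVars false

open Set Filter Topology Function OnePoint
open Pool.Agent.H468R2.MA (RS Iso)

namespace Pool.Agent.X219.CH

open Classical in
/-- the flip of the flags of the tuples in the structure -/
noncomputable def flf (y : RS (ℕ × ℕ) Prod.snd) : Ltr → Ltr
  | Ltr.v n => Ltr.v n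
  | Ltr.t a i => Ltr.t a (if y a.1 a.2 then !i else i)

theorem flf_flf (y : RS (ℕ × ℕ) Prod.snd) (x : Ltr) : flf y (flf y x) = x := by
  rcases x with n | ⟨a, i⟩
  · rfl
  · simp only [flf]
    split_ifs <;> simp

/-- the flip as a bijection -/
noncomputable def fl (y : RS (ℕ × ℕ) Prod.snd) : Ltr ≃ Ltr where
  toFun := flf y
  invFun := flf y
  left_inv := flf_flf y
  right_inv := flf_flf y

theorem fl_fl (y : RS (ℕ × ℕ) Prod.snd) (x : Ltr) : fl y (fl y x) = x := flf_flf y x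

theorem Flp_fl (y : RS (ℕ × ℕ) Prod.snd) : Flp (fl y) := ⟨fun _ => rfl, fun _ _ => ⟨_, rfl⟩⟩

theorem Gd_of_Flp {e : Ltr ≃ Ltr} (h : Flp e) (h2 : ∀ x, e (e x) = x) : Gd e := by
  refine ⟨fun x => ?_, fun k x y => ?_⟩
  · rcases x with n | ⟨a, i⟩
    · rw [h.1]
    · obtain ⟨j, hj⟩ := h.2 a i
      rw [hj]; rfl
  · have key : ∀ x y, Inc k x y → Inc k (e x) (e y) := by
      rintro x y ⟨n, a, i, rfl, rfl, h3⟩
      obtain ⟨j, hj⟩ := h.2 a i
      rw [h.1, hj]
      exact ⟨n, a, j, rfl, rfl, h3⟩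
    refine ⟨fun h3 => ?_, key x y⟩
    have := key _ _ h3
    rwa [h2, h2] at this

theorem Gd_fl (y : RS (ℕ × ℕ) Prod.snd) : Gd (fl y) := Gd_of_Flp (Flp_fl y) (fl_fl y)

theorem fl_t_ne (y : RS (ℕ × ℕ) Prod.snd) (a : Tup) (i : Bool) :
    fl y (Ltr.t a i) ≠ Ltr.t a i ↔ y a.1 a.2 := by
  show flf y (Ltr.t a i) ≠ Ltr.t a i ↔ y a.1 a.2
  simp only [flf]
  split_ifs with h
  · simp [h]
  · simp [h]

/-- the homeomorphism of a structure -/
noncomputable def TS (y : RS (ℕ × ℕ) Prod.snd) : X ≃ₜ X := T (fl y) (Gd_fl y)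

/-- the letter map of a permutation -/
def pl (π : Equiv.Perm ℕ) : Ltr → Ltr
  | Ltr.v n => Ltr.v (π n)
  | Ltr.t a i => Ltr.t ⟨a.1, fun s => π (a.2 s)⟩ i

theorem pl_pl (π : Equiv.Perm ℕ) (x : Ltr) : pl π.symm (pl π x) = x := by
  rcases x with n | ⟨⟨r, a⟩, i⟩
  · simp [pl]
  · simp [pl]

/-- the letter map as a bijection -/
def pe (π : Equiv.Perm ℕ) : Ltr ≃ Ltr where
  toFun := pl π
  invFun := pl π.symm
  left_inv := pl_pl π
  right_inv := pl_pl π.symm

theorem Gd_pe (π : Equiv.Perm ℕ) : Gd (pe π) := by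
  have key : ∀ (π : Equiv.Perm ℕ) (k : ℕ) (x y : Ltr), Inc k x y → Inc k (pl π x) (pl π y) := by
    rintro π k x y ⟨n, a, i, rfl, rfl, h, h3⟩
    refine ⟨π n, ⟨a.1, fun s => π (a.2 s)⟩, i, rfl, rfl, h, ?_⟩
    show π (a.2 _) = π n
    rw [← h3]
  refine ⟨fun x => ?_, fun k x y => ⟨fun h => ?_, key π k x y⟩⟩
  · rcases x with n | ⟨a, i⟩ <;> rfl
  · have := key π.symm k _ _ h
    change Inc k (pl π.symm (pl π x)) (pl π.symm (pl π y)) at this
    rwa [pl_pl, pl_pl] at this

/-- isomorphic structures have conjugate homeomorphisms -/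
theorem conj_of_iso {y z : RS (ℕ × ℕ) Prod.snd} (h : Iso y z) :
    ∃ g : X ≃ₜ X, ∀ x, g (TS y x) = TS z (g x) := by
  obtain ⟨π, hπ⟩ := h
  have hc : ∀ x, pe π (fl y x) = fl z (pe π x) := by
    intro x
    show pl π (flf y x) = flf z (pl π x)
    rcases x with n | ⟨⟨r, a⟩, i⟩
    · rfl
    · have h1 := hπ r a
      simp only [flf, pl]
      by_cases h2 : y r a
      · rw [if_pos h2, if_pos (h1.2 h2)]
      · rw [if_neg h2, if_neg (fun h3 => h2 (h1.1 h3))]
  have hc' : ∀ a : A, em (pe π) (em (fl y) a) = em (fl z) (em (pe π) a) := by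
    intro a
    induction a using OnePoint.rec with
    | infty => rfl
    | coe x => rw [em_coe, em_coe, em_coe, em_coe, hc]
  refine ⟨{ toFun := mp (pe π) (Gd_pe π)
            invFun := mp (pe π).symm (Gd_pe π).symm
            left_inv := mp_symm_mp _ _
            right_inv := mp_mp_symm _ _
            continuous_toFun := continuous_mp _ _
            continuous_invFun := continuous_mp _ _ }, fun x => ?_⟩
  show mp (pe π) (Gd_pe π) (TS y x) = TS z (mp (pe π) (Gd_pe π) x)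
  refine X_ext (fun n => rfl) (fun n k => ?_)
  show em (pe π) (em (fl y) _) = em (fl z) (em (pe π) _)
  exact hc' _

instance : NoncompactSpace Ltr := ⟨fun h => Set.infinite_univ (isCompact_iff_finite.1 h)⟩

theorem not_isOpen_infty : ¬ IsOpen ({(∞ : A)} : Set A) := by
  rw [isOpen_singleton_iff_punctured_nhds]
  exact (OnePoint.nhdsNE_infty_neBot (X := Ltr)).ne

/-- the map of the letters induced by a conjugacy -/
theorem exists_theta {e f : Ltr ≃ Ltr} {he : Gd e} {hf : Gd f} (he2 : ∀ x, e (e x) = x)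
    (hf2 : ∀ x, f (f x) = x) (h : X ≃ₜ X) (hc : ∀ x, h (T e he x) = T f hf (h x)) :
    ∃ θ : A → A, Continuous θ ∧ ∀ a, h (cst a) = cst (θ a) := by
  have hcc : Continuous (cst : A → X) :=
    continuous_rng (fun _ => continuous_const) (fun _ _ => continuous_id)
  refine ⟨fun a => (h (cst a)).1.2 0 0, (continuous_at 0 0).comp (h.continuous.comp hcc), ?_⟩
  intro a
  have h1 : (T f hf)^[2] (h (cst a)) = h (cst a) := by
    show T f hf (T f hf (h (cst a))) = h (cst a)
    rw [← hc, ← hc]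
    exact congrArg h (fix2_cst he2 a)
  obtain ⟨b, hb⟩ := fix2 hf2 h1
  show h (cst a) = cst ((h (cst a)).1.2 0 0)
  rw [hb]
  rfl

theorem theta_spec {e f : Ltr ≃ Ltr} {he : Gd e} {hf : Gd f} (he2 : ∀ x, e (e x) = x)
    (hf2 : ∀ x, f (f x) = x) (h : X ≃ₜ X) (hc : ∀ x, h (T e he x) = T f hf (h x)) :
    ∃ g : Ltr → Ltr, (∀ x : Ltr, h (cst (x : A)) = cst (g x : A)) ∧ h (cst ∞) = cst ∞ := by
  obtain ⟨θ, hθ, h1⟩ := exists_theta he2 hf2 h hc
  have hinj : Injective θ := by
    intro a b hab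
    apply cst_injective
    apply h.injective
    rw [h1, h1, hab]
  have hinf : θ ∞ = ∞ := by
    by_contra hne
    obtain ⟨x, hx⟩ := OnePoint.ne_infty_iff_exists.1 hne
    apply not_isOpen_infty
    have : ({(∞ : A)} : Set A) = θ ⁻¹' {(x : A)} := by
      ext a
      simp only [mem_singleton_iff, mem_preimage]
      constructor
      · rintro rfl; exact hx.symm
      · intro ha
        apply hinj
        rw [ha, hx]
    rw [this]
    exact (isOpen_coe x).preimage hθ
  have hfin : ∀ x : Ltr, ∃ y : Ltr, (y : A) = θ x := by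
    intro x
    apply OnePoint.ne_infty_iff_exists.1
    intro h3
    exact OnePoint.coe_ne_infty x (hinj (h3.trans hinf.symm))
  choose g hg using hfin
  exact ⟨g, fun x => by rw [h1, hg], by rw [h1, hinf]⟩

theorem mem_Al_sort {x : Ltr} {s : ℕ} (h : sort x = s) : ((x : A), (∞ : A)) ∈ Al (2 * s) := by
  simp only [Al]
  rw [if_pos (by omega), Nat.mul_div_cancel_left s (by norm_num)]
  refine ⟨rfl, fun y hy => ?_⟩
  rw [← OnePoint.coe_injective hy]
  exact h

theorem mem_Al_inc {k : ℕ} {x y : Ltr} (h : Inc k x y) : ((x : A), (y : A)) ∈ Al (2 * k + 1) := by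
  simp only [Al]
  rw [if_neg (by omega), show (2 * k + 1) / 2 = k by omega]
  intro x' y' hx hy
  rw [← OnePoint.coe_injective hx, ← OnePoint.coe_injective hy]
  exact h

/-- conjugate homeomorphisms come from isomorphic structures -/
theorem iso_of_conj {y z : RS (ℕ × ℕ) Prod.snd} (h : X ≃ₜ X)
    (hc : ∀ x, h (TS y x) = TS z (h x)) : Iso y z := by
  have hc' : ∀ x, h.symm (TS z x) = TS y (h.symm x) := by
    intro x
    rw [h.symm_apply_eq, hc, h.apply_symm_apply]
  obtain ⟨g, hg, hgi⟩ := theta_spec (fl_fl y) (fl_fl z) h hc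
  obtain ⟨g', hg', hgi'⟩ := theta_spec (fl_fl z) (fl_fl y) h.symm hc'
  have hgg' : ∀ x, g (g' x) = x := by
    intro x
    apply OnePoint.coe_injective
    apply cst_injective
    rw [← hg, ← hg', h.apply_symm_apply]
  have hg'g : ∀ x, g' (g x) = x := by
    intro x
    apply OnePoint.coe_injective
    apply cst_injective
    rw [← hg', ← hg, h.symm_apply_apply]
  have hsort : ∀ x, sort (g x) = sort x := by
    intro x
    have h1 : Rec (TS y) (2 * sort x) (cst x) (cst ∞) :=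
      Rec_of_mem (fl_fl y) (mem_Al_sort rfl) (OnePoint.coe_ne_infty x)
    have h2 := h1.map h hc
    rw [hg, hgi] at h2
    exact sort_of_Rec (fl_fl z) h2
  have hsort' : ∀ x, sort (g' x) = sort x := by
    intro x
    rw [← hsort (g' x), hgg']
  have hv : ∀ (g : Ltr → Ltr), (∀ x, sort (g x) = sort x) → ∀ n, ∃ m, g (Ltr.v n) = Ltr.v m := by
    intro g hs n
    have h1 := hs (Ltr.v n)
    generalize g (Ltr.v n) = x at h1
    rcases x with m | ⟨a, i⟩
    · exact ⟨m, rfl⟩
    · simp [sort] at h1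
  choose p hp using hv g hsort
  choose p' hp' using hv g' hsort'
  let π : Equiv.Perm ℕ :=
    { toFun := p
      invFun := p'
      left_inv := fun n => by
        have := hg'g (Ltr.v n)
        rw [hp, hp'] at this
        exact Ltr.v.inj this
      right_inv := fun n => by
        have := hgg' (Ltr.v n)
        rw [hp', hp] at this
        exact Ltr.v.inj this }
  have hcomm : ∀ x, g (fl y x) = fl z (g x) := by
    intro x
    apply OnePoint.coe_injective
    apply cst_injective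
    have h1 := hc (cst (x : A))
    have h2 : TS y (cst (x : A)) = cst (fl y x : A) := T_cst _ _ _
    rw [h2, hg, hg] at h1
    rw [h1]
    exact T_cst _ _ _
  refine ⟨π, fun r a => ?_⟩
  have h1 := hsort (Ltr.t ⟨r, a⟩ false)
  obtain ⟨a', i', ha'⟩ : ∃ a' : Tup, ∃ i', g (Ltr.t ⟨r, a⟩ false) = Ltr.t a' i' := by
    generalize g (Ltr.t ⟨r, a⟩ false) = x at h1
    rcases x with m | ⟨a, i⟩
    · simp [sort] at h1
    · exact ⟨a, i, rfl⟩
  rw [ha'] at h1
  obtain ⟨r', a'⟩ := a'
  have hr : r' = r := by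
    simp only [sort, Nat.add_right_cancel_iff, Nat.pair_eq_pair] at h1
    exact Prod.ext h1.1 h1.2
  subst hr
  have hinc : ∀ k : Fin r'.2, a' k = π (a k) := by
    intro k
    have h2 : Inc k (Ltr.v (a k)) (Ltr.t ⟨r', a⟩ false) := ⟨a k, ⟨r', a⟩, false, rfl, rfl, k.2, rfl⟩
    have h3 : Rec (TS y) (2 * k + 1) (cst (Ltr.v (a k) : A)) (cst (Ltr.t ⟨r', a⟩ false : A)) :=
      Rec_of_mem (fl_fl y) (mem_Al_inc h2) (fun h4 => by
        have := OnePoint.coe_injective h4
        exact absurd this (by simp))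
    have h4 := h3.map h hc
    rw [hg, hg, hp, ha'] at h4
    obtain ⟨h5, h6⟩ := inc_of_Rec (fl_fl z) (Flp_fl z) h4
    exact h6
  have ha2 : a' = fun s => π (a s) := funext hinc
  subst ha2
  have h2 := fl_t_ne z ⟨r', fun s => π (a s)⟩ i'
  have h3 := fl_t_ne y ⟨r', a⟩ false
  have h4 : fl y (Ltr.t ⟨r', a⟩ false) ≠ Ltr.t ⟨r', a⟩ false ↔
      fl z (Ltr.t ⟨r', fun s => π (a s)⟩ i') ≠ Ltr.t ⟨r', fun s => π (a s)⟩ i' := by
    rw [← ha', ← hcomm]
    refine not_congr ⟨fun h5 => by rw [h5], fun h5 => ?_⟩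
    have := congrArg g' h5
    rwa [hg'g, hg'g] at this
  exact (h2.symm.trans (h4.symm.trans h3))

theorem conj_iff (y z : RS (ℕ × ℕ) Prod.snd) :
    (∃ g : X ≃ₜ X, ∀ x, g (TS y x) = TS z (g x)) ↔ Iso y z :=
  ⟨fun ⟨g, hg⟩ => iso_of_conj g hg, conj_of_iso⟩

end Pool.Agent.X219.CH
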