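import Pool.Agent.X219.CH.Space

/-!
Recovering the structure from the conjugacy class.
-/

set_option autoImplicit false
set_option linter.unusedSectionVars false

open Set Filter Topology Function OnePoint

namespace Pool.Agent.X219.CH

theorem not_three_dvd_two_pow (k : ℕ) : ¬ (3 : ℤ) ∣ ((2 ^ k : ℕ) : ℤ) := by
  intro h
  have h1 : (3 : ℕ) ∣ 2 ^ k := by exact_mod_cast h
  have h2 := Nat.Prime.dvd_of_dvd_pow Nat.prime_three h1
  omega

section per

variable {e : Ltr ≃ Ltr} {he : Gd e}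

/-- periodic points whose period is not divisible by three have no resets -/
theorem starfree {x : X} {m : ℕ} (hm : ¬ (3 : ℤ) ∣ (m : ℤ)) (hx : (T e he)^[m] x = x) (n : ℤ) :
    x.1.1 n = false := by
  by_contra h
  rw [Bool.not_eq_false] at h
  have h1 : x.1.1 (n + m) = true := by
    rw [← iter_fst e he m x n, hx]; exact h
  have h2 := x.2.2.2.2 _ _ h1 h
  rw [add_sub_cancel_left] at h2
  exact hm h2

theorem eq_zero_of_starfree {x : X} (h : ∀ n, x.1.1 n = false) (n : ℤ) : x.1.2 n = x.1.2 0 := by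
  have h1 : ∀ n, x.1.2 n = x.1.2 (n + 1) := by
    intro n
    rcases x.2.2.2.1 n with h2 | h2 | h2
    · rw [h n] at h2; exact absurd h2 (by simp)
    · rw [h (n + 1)] at h2; exact absurd h2 (by simp)
    · exact h2
  induction n using Int.induction_on with
  | zero => rfl
  | succ n ih => rw [← h1, ih]
  | pred n ih =>
    have := h1 (-(n : ℤ) - 1)
    rw [sub_add_cancel] at this
    rw [this, ih]

theorem eq_ι_of_starfree {x : X} (h : ∀ n, x.1.1 n = false) : x = ι (x.1.2 0) (x.2.1 0) := by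
  refine X_ext (fun n => h n) (fun n k => ?_)
  show x.1.2 n k = x.1.2 0 k
  rw [eq_zero_of_starfree h n]

theorem period {x : X} (h2 : ∀ x, e (e x) = x) (h : ∀ n, x.1.1 n = false) {m : ℕ}
    (hx : (T e he)^[2 * m] x = x) (k : ℤ) : x.1.2 0 (k + (2 * m : ℕ)) = x.1.2 0 k := by
  have h3 : (sh ((2 * m : ℕ) : ℤ) x).1.2 0 k = x.1.2 0 k := by rw [← iter_even e he h2, hx]
  rw [sh_snd, eq_zero_of_starfree h] at h3
  exact h3

end per

theorem const_of_step {u : ℤ → A} (h : ∀ k, u k = u (k + 1)) (n : ℤ) : u n = u 0 := by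
  induction n using Int.induction_on with
  | zero => rfl
  | succ n ih => rw [← h, ih]
  | pred n ih =>
    have := h (-(n : ℤ) - 1)
    rw [sub_add_cancel] at this
    rw [this, ih]

theorem Wi_const {u : ℤ → A} (hu : u ∈ Wi) {M : ℤ} (hM : 0 < M) (h : ∀ k, u (k + M) = u k) (n : ℤ) :
    u n = u 0 := by
  refine const_of_step (fun k => ?_) n
  rcases hu k (k + M) (by linarith) with h1 | h1
  · exact h1
  · rw [h k] at h1
    rw [h1]
    have e : k + M + 1 = k + 1 + M := by ring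
    rw [e, h]

theorem blk_small {q : A × A} {p : ℕ} {t M : ℤ} (hM : 0 < M) (hM2 : M ≤ 2 ^ (p + 1))
    (h : ∀ k, blk q p (t + (k + M)) = blk q p (t + k)) : q.1 = q.2 := by
  have h1 := h (2 ^ (p + 1) - 1 - t)
  have hH : (0 : ℤ) < 2 ^ (p + 1) := by positivity
  have h2 : (2 : ℤ) ^ (p + 2) = 2 * 2 ^ (p + 1) := by ring
  rw [blk_snd q p (by linarith) (by linarith), blk_fst q p (by linarith) (by linarith)] at h1
  exact h1.symm

theorem blk_const {q : A × A} (p : ℕ) (h : q.1 = q.2) (n : ℤ) : blk q p n = q.1 := by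
  rcases blk_mem q p n with h1 | h1
  · exact h1
  · rw [h1, h]

theorem T_cst (e : Ltr ≃ Ltr) (he : Gd e) (a : A) : T e he (cst a) = cst (em e a) :=
  X_ext (fun _ => rfl) (fun _ _ => rfl)

theorem cst_injective : Injective cst := fun a b h => by
  have : (cst a).1.2 0 0 = (cst b).1.2 0 0 := by rw [h]
  exact this

/-- the points fixed by the square are the constant points -/
theorem fix2 {e : Ltr ≃ Ltr} {he : Gd e} (h2 : ∀ x, e (e x) = x) {x : X}
    (hx : (T e he)^[2] x = x) : ∃ a, x = cst a := by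
  have hs : ∀ n, x.1.1 n = false := starfree (m := 2) (by norm_num) hx
  have hp : ∀ k : ℤ, x.1.2 0 (k + 2) = x.1.2 0 k := fun k => period (m := 1) h2 hs hx k
  have hc : ∀ n, x.1.2 0 n = x.1.2 0 0 := by
    rcases x.2.1 0 with ⟨p, t, q, hq, h⟩ | h
    · rw [h] at hp ⊢
      have h3 : q.1 = q.2 := blk_small (p := p) (t := t) (M := 2) (by norm_num)
        (by
          have : (2 : ℤ) ^ (p + 1) = 2 * 2 ^ p := by ring
          have h4 : (1 : ℤ) ≤ 2 ^ p := one_le_pow₀ (by norm_num)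
          linarith) hp
      intro n
      show blk q p (t + n) = blk q p (t + 0)
      rw [blk_const p h3, blk_const p h3]
    · exact Wi_const h (by norm_num) hp
  refine ⟨x.1.2 0 0, X_ext (fun n => hs n) (fun n k => ?_)⟩
  show x.1.2 n k = x.1.2 0 0
  rw [eq_zero_of_starfree hs n, hc]

theorem fix2_cst {e : Ltr ≃ Ltr} {he : Gd e} (h2 : ∀ x, e (e x) = x) (a : A) :
    (T e he)^[2] (cst a) = cst a := by
  show T e he (T e he (cst a)) = cst a
  rw [T_cst, T_cst]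
  congr 1
  exact em_iter_even e h2 1 a

/-- the periodic points of period a power of two -/
theorem per_elim {e : Ltr ≃ Ltr} {he : Gd e} (h2 : ∀ x, e (e x) = x) {w : X} {p : ℕ}
    (h3 : (T e he)^[2 ^ (p + 2)] w = w) (h4 : (T e he)^[2 ^ (p + 1)] w ≠ w) :
    ∃ q ∈ Al (Nat.unpair p).1, q.1 ≠ q.2 ∧ ∃ t : ℤ, ∀ n k, w.1.2 n k = blk q p (t + k) := by
  have hs : ∀ n, w.1.1 n = false := starfree (not_three_dvd_two_pow _) h3
  have e2 : 2 ^ (p + 2) = 2 * 2 ^ (p + 1) := by ring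
  have e1 : 2 ^ (p + 1) = 2 * 2 ^ p := by ring
  have hp : ∀ k : ℤ, w.1.2 0 (k + 2 ^ (p + 2)) = w.1.2 0 k := by
    intro k
    have := period (m := 2 ^ (p + 1)) h2 hs (by rw [← e2]; exact h3) k
    rw [← e2] at this
    push_cast at this
    exact this
  have hn : ¬ ∀ k : ℤ, w.1.2 0 (k + 2 ^ (p + 1)) = w.1.2 0 k := by
    intro h
    apply h4
    rw [e1, iter_even e he h2]
    refine X_ext (fun n => ?_) (fun n k => ?_)
    · rw [sh_fst, hs, hs]
    · rw [sh_snd, eq_zero_of_starfree hs, eq_zero_of_starfree hs n, ← e1]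
      push_cast
      exact h k
  rcases w.2.1 0 with ⟨p', t, q, hq, h⟩ | h
  · rw [h] at hp hn
    have hne : q.1 ≠ q.2 := by
      intro h5
      apply hn
      intro k
      show blk q p' (t + (k + 2 ^ (p + 1))) = blk q p' (t + k)
      rw [blk_const p' h5, blk_const p' h5]
    have hle : p' ≤ p := by
      by_contra h5
      push Not at h5
      apply hne
      refine blk_small (p := p') (t := t) (M := 2 ^ (p + 2)) (by positivity) ?_ hp
      exact pow_le_pow_right₀ (by norm_num) (by omega)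
    have hge : p ≤ p' := by
      by_contra h5
      push Not at h5
      apply hn
      intro k
      show blk q p' (t + (k + 2 ^ (p + 1))) = blk q p' (t + k)
      have e3 : (2 : ℤ) ^ (p + 1) = 2 ^ (p - p' - 1) * 2 ^ (p' + 2) := by
        rw [← pow_add]; congr 1; omega
      have e4 : t + (k + 2 ^ (p + 1)) = t + k + 2 ^ (p - p' - 1) * 2 ^ (p' + 2) := by
        rw [e3]; ring
      rw [e4, blk_add_mul]
    obtain rfl := le_antisymm hle hge
    refine ⟨q, hq, hne, t, fun n k => ?_⟩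
    rw [eq_zero_of_starfree hs, h]
  · exfalso
    apply hn
    have hc := Wi_const h (by positivity) hp
    intro k
    rw [hc, hc k]

/-- the recovered relation -/
def Rec {Y : Type} [TopologicalSpace Y] (S : Y → Y) (c : ℕ) (P Q : Y) : Prop :=
  ∀ U ∈ 𝓝 P, ∀ V ∈ 𝓝 Q, ∀ j₀ : ℕ, ∃ j ≥ j₀, ∃ w, S^[2 ^ (Nat.pair c j + 2)] w = w ∧
    S^[2 ^ (Nat.pair c j + 1)] w ≠ w ∧ (∃ m : ℕ, S^[m] w ∈ U) ∧ ∃ m : ℕ, S^[m] w ∈ V

theorem Rec.map {Y Z : Type} [TopologicalSpace Y] [TopologicalSpace Z] {S : Y → Y} {R : Z → Z}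
    (h : Y ≃ₜ Z) (hc : ∀ y, h (S y) = R (h y)) {c : ℕ} {P Q : Y} (hr : Rec S c P Q) :
    Rec R c (h P) (h Q) := by
  intro U hU V hV j₀
  have hc' : ∀ (m : ℕ) (y : Y), h (S^[m] y) = R^[m] (h y) := by
    intro m
    induction m with
    | zero => intro y; rfl
    | succ m ih => intro y; rw [iterate_succ_apply', iterate_succ_apply', hc, ih]
  obtain ⟨j, hj, w, h1, h2, ⟨m, h3⟩, ⟨m', h4⟩⟩ :=
    hr (h ⁻¹' U) (h.continuous.continuousAt.preimage_mem_nhds hU) (h ⁻¹' V)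
      (h.continuous.continuousAt.preimage_mem_nhds hV) j₀
  refine ⟨j, hj, h w, ?_, ?_, ⟨m, ?_⟩, ⟨m', ?_⟩⟩
  · rw [← hc', h1]
  · rw [← hc']
    exact fun h5 => h2 (h.injective h5)
  · rw [← hc']; exact h3
  · rw [← hc']; exact h4

theorem Rec_of_mem {e : Ltr ≃ Ltr} {he : Gd e} (h2 : ∀ x, e (e x) = x) {c : ℕ} {a b : A}
    (hab : (a, b) ∈ Al c) (hne : a ≠ b) : Rec (T e he) c (cst a) (cst b) := by
  intro U hU V hV j₀
  obtain ⟨N, hN⟩ := exists_window hU
  obtain ⟨M, hM⟩ := exists_window hV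
  obtain ⟨p', hp', hj⟩ : ∃ p', Nat.pair c (j₀ + N + M + 1) = p' + 1 ∧ N + M ≤ p' := by
    have := Nat.right_le_pair c (j₀ + N + M + 1)
    exact ⟨Nat.pair c (j₀ + N + M + 1) - 1, by omega, by omega⟩
  refine ⟨j₀ + N + M + 1, by omega, ?_⟩
  rw [hp']
  have hNp : ((N + M : ℕ) : ℤ) < 2 ^ p' := by
    have : N + M < 2 ^ p' := lt_of_le_of_lt hj Nat.lt_two_pow_self
    exact_mod_cast this
  push_cast at hNp
  have hpos : (0 : ℤ) < 2 ^ p' := by positivity
  have hmem : (fun n : ℤ => blk (a, b) (p' + 1) (0 + n)) ∈ Zs := by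
    refine Or.inl ⟨p' + 1, 0, (a, b), ?_, rfl⟩
    rw [← hp', Nat.unpair_pair]
    exact hab
  have s1 : (2 : ℤ) ^ (p' + 1) = 2 * 2 ^ p' := by ring
  have s2 : (2 : ℤ) ^ (p' + 1 + 1) = 4 * 2 ^ p' := by ring
  have s3 : (2 : ℤ) ^ (p' + 1 + 2) = 8 * 2 ^ p' := by ring
  refine ⟨ι _ hmem, ?_, ?_, ⟨2 * 2 ^ p', ?_⟩, ⟨2 * (3 * 2 ^ p'), ?_⟩⟩
  · have e1 : 2 ^ (p' + 1 + 2) = 2 * (2 ^ (p' + 2)) := by ring
    rw [e1, iter_even e he h2]
    refine X_ext (fun n => rfl) (fun n k => ?_)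
    rw [sh_snd]
    show blk (a, b) (p' + 1) (0 + (k + _)) = blk (a, b) (p' + 1) (0 + k)
    have e2 : 0 + (k + ((2 * 2 ^ (p' + 2) : ℕ) : ℤ)) = 0 + k + 1 * 2 ^ (p' + 1 + 2) := by
      push_cast; ring
    rw [e2, blk_add_mul]
  · intro h
    have e1 : 2 ^ (p' + 1 + 1) = 2 * (2 ^ (p' + 1)) := by ring
    rw [e1, iter_even e he h2] at h
    have h3 : (sh ((2 * 2 ^ (p' + 1) : ℕ) : ℤ) (ι _ hmem)).1.2 0 0 = (ι _ hmem).1.2 0 0 := by rw [h]
    rw [sh_snd] at h3
    have h4 : blk (a, b) (p' + 1) (0 + (0 + ((2 * 2 ^ (p' + 1) : ℕ) : ℤ))) =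
      blk (a, b) (p' + 1) (0 + 0) := h3
    push_cast at h4
    rw [blk_snd (a, b) (p' + 1) (by linarith) (by linarith),
      blk_fst (a, b) (p' + 1) (by linarith) (by linarith)] at h4
    exact hne h4.symm
  · rw [iter_even e he h2]
    apply hN
    · intro n _ _; rfl
    · intro n k _ _ h5 h6
      rw [sh_snd]
      show blk (a, b) (p' + 1) (0 + (k + _)) = a
      push_cast
      exact blk_fst (a, b) (p' + 1) (by linarith) (by linarith)
  · rw [iter_even e he h2]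
    apply hM
    · intro n _ _; rfl
    · intro n k _ _ h5 h6
      rw [sh_snd]
      show blk (a, b) (p' + 1) (0 + (k + _)) = b
      push_cast
      exact blk_snd (a, b) (p' + 1) (by linarith) (by linarith)

theorem em_iter_eq_coe {e : Ltr ≃ Ltr} {m : ℕ} {a : A} {x : Ltr} (h : (em e)^[m] a = x) :
    ∃ y : Ltr, a = y ∧ e^[m] y = x := by
  induction m generalizing a x with
  | zero => exact ⟨x, h, rfl⟩
  | succ m ih =>
    rw [iterate_succ_apply'] at h
    obtain ⟨y, hy, rfl⟩ := em_eq_coe h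
    obtain ⟨z, hz, rfl⟩ := ih hy
    exact ⟨z, hz, by rw [iterate_succ_apply']⟩

/-- flips -/
def Flp (e : Ltr ≃ Ltr) : Prop :=
  (∀ n, e (Ltr.v n) = Ltr.v n) ∧ ∀ a i, ∃ j, e (Ltr.t a i) = Ltr.t a j

theorem Flp.iter_v {e : Ltr ≃ Ltr} (h : Flp e) (m n : ℕ) : e^[m] (Ltr.v n) = Ltr.v n := by
  induction m with
  | zero => rfl
  | succ m ih => rw [iterate_succ_apply', ih, h.1]

theorem Flp.iter_t {e : Ltr ≃ Ltr} (h : Flp e) (m : ℕ) (a : Tup) (i : Bool) :
    ∃ j, e^[m] (Ltr.t a i) = Ltr.t a j := by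
  induction m with
  | zero => exact ⟨i, rfl⟩
  | succ m ih =>
    obtain ⟨j, hj⟩ := ih
    rw [iterate_succ_apply', hj]
    exact h.2 a j

theorem isOpen_coord (x : Ltr) : IsOpen {y : X | y.1.2 0 0 = (x : A)} :=
  (isOpen_coe x).preimage (continuous_at 0 0)

/-- visits to a letter -/
theorem visit {e : Ltr ≃ Ltr} {he : Gd e} {w : X} {q : A × A} {p : ℕ} {t : ℤ}
    (hw : ∀ n k, w.1.2 n k = blk q p (t + k)) {m : ℕ} {x : Ltr}
    (h : (T e he)^[m] w ∈ {y : X | y.1.2 0 0 = (x : A)}) :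
    ∃ y : Ltr, (q.1 = y ∨ q.2 = y) ∧ e^[m] y = x := by
  have h1 : ((T e he)^[m] w).1.2 0 0 = (x : A) := h
  rw [iter_snd, hw] at h1
  obtain ⟨y, hy, h3⟩ := em_iter_eq_coe h1
  refine ⟨y, ?_, h3⟩
  rcases blk_mem q p (t + (0 + (m : ℤ))) with h4 | h4
  · exact Or.inl (h4.symm.trans hy)
  · exact Or.inr (h4.symm.trans hy)

theorem sort_of_Rec {e : Ltr ≃ Ltr} {he : Gd e} (h2 : ∀ x, e (e x) = x) {s : ℕ} {x : Ltr} {Q : X}
    (h : Rec (T e he) (2 * s) (cst x) Q) : sort x = s := by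
  obtain ⟨j, -, w, h3, h4, ⟨m, h5⟩, -⟩ := h _ ((isOpen_coord x).mem_nhds rfl) univ univ_mem 0
  obtain ⟨q, hq, hne, t, hw⟩ := per_elim h2 h3 h4
  obtain ⟨y, hy, rfl⟩ := visit hw h5
  rw [Nat.unpair_pair] at hq
  simp only [Al] at hq
  rw [if_pos (by omega), Nat.mul_div_cancel_left s (by norm_num)] at hq
  have hs : ∀ (m : ℕ) (y : Ltr), sort (e^[m] y) = sort y := by
    intro m
    induction m with
    | zero => intro y; rfl
    | succ m ih => intro y; rw [iterate_succ_apply', he.1, ih]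
  rw [hs]
  rcases hy with hy | hy
  · exact hq.2 y hy
  · rw [hq.1] at hy
    exact absurd hy (OnePoint.infty_ne_coe y)

theorem inc_of_Rec {e : Ltr ≃ Ltr} {he : Gd e} (h2 : ∀ x, e (e x) = x) (hf : Flp e) {k n : ℕ}
    {a : Tup} {i : Bool}
    (h : Rec (T e he) (2 * k + 1) (cst (Ltr.v n : A)) (cst (Ltr.t a i : A))) :
    ∃ h : k < a.1.2, a.2 ⟨k, h⟩ = n := by
  obtain ⟨j, -, w, h3, h4, ⟨m, h5⟩, ⟨m', h6⟩⟩ := h _ ((isOpen_coord (Ltr.v n)).mem_nhds rfl)
    _ ((isOpen_coord (Ltr.t a i)).mem_nhds rfl) 0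
  obtain ⟨q, hq, hne, t, hw⟩ := per_elim h2 h3 h4
  obtain ⟨y, hy, hy2⟩ := visit hw h5
  obtain ⟨z, hz, hz2⟩ := visit hw h6
  rw [Nat.unpair_pair] at hq
  simp only [Al] at hq
  rw [if_neg (by omega), show (2 * k + 1) / 2 = k by omega] at hq
  have hy3 : y = Ltr.v n := by
    rcases y with n' | ⟨a', i'⟩
    · rw [hf.iter_v] at hy2
      exact hy2
    · obtain ⟨j', hj'⟩ := hf.iter_t m a' i'
      rw [hj'] at hy2
      exact absurd hy2 (by simp)
  obtain ⟨i', hz3⟩ : ∃ i', z = Ltr.t a i' := by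
    rcases z with n' | ⟨a', i'⟩
    · rw [hf.iter_v] at hz2
      exact absurd hz2 (by simp)
    · obtain ⟨j', hj'⟩ := hf.iter_t m' a' i'
      rw [hj'] at hz2
      have := (Ltr.t.inj hz2).1
      exact ⟨i', by rw [this]⟩
  subst hy3
  subst hz3
  have key : ∀ x y : Ltr, Inc k x y → x = Ltr.v n → y = Ltr.t a i' →
      ∃ h : k < a.1.2, a.2 ⟨k, h⟩ = n := by
    rintro x y ⟨n', a', i'', rfl, rfl, h7⟩ h8 h9
    rw [(Ltr.v.inj h8)] at h7
    rw [(Ltr.t.inj h9).1] at h7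
    exact h7
  rcases hy with hy | hy <;> rcases hz with hz | hz
  · rw [hy] at hz
    exact absurd (OnePoint.coe_injective hz) (by simp)
  · exact key _ _ (hq _ _ hy hz) rfl rfl
  · obtain ⟨n', a', i'', h7, -⟩ := hq _ _ hz hy
    exact absurd h7 (by simp)
  · rw [hy] at hz
    exact absurd (OnePoint.coe_injective hz) (by simp)

end Pool.Agent.X219.CH
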