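import Pool.Agent.X219.CH.Base
import Pool.Agent.H812R3.CantorChar

/-!
The space of pseudo-orbits with resets.
-/

set_option autoImplicit false
set_option linter.unusedSectionVars false

open Set Filter Topology Function OnePoint

namespace Pool.Agent.X219.CH

/-- the ambient space -/
abbrev Amb : Type := (ℤ → Bool) × (ℤ → ℤ → A)

/-- resets occur in one class modulo three; between resets the (centred) block sequence is
constant -/
def Xs : Set Amb :=
  {x | (∀ n, x.2 n ∈ Zs) ∧ (∀ n, x.1 n = true → x.2 n = fun _ => ∞) ∧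
    (∀ n, x.1 n = true ∨ x.1 (n + 1) = true ∨ x.2 n = x.2 (n + 1)) ∧
    ∀ m n, x.1 m = true → x.1 n = true → (3 : ℤ) ∣ m - n}

theorem continuous_fst_at (n : ℤ) : Continuous fun x : Amb => x.1 n :=
  (continuous_apply n).comp continuous_fst

theorem continuous_snd_at (n : ℤ) : Continuous fun x : Amb => x.2 n :=
  (continuous_apply n).comp continuous_snd

theorem isClopen_true (n : ℤ) : IsClopen {x : Amb | x.1 n = true} :=
  (isClopen_discrete {true}).preimage (continuous_fst_at n)

theorem isClosed_Xs : IsClosed Xs := by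
  have h1 : IsClosed {x : Amb | ∀ n, x.2 n ∈ Zs} := by
    simp only [Set.ofPred_forall]
    exact isClosed_iInter fun n => isClosed_Zs.preimage (continuous_snd_at n)
  have h2 : IsClosed {x : Amb | ∀ n, x.1 n = true → x.2 n = fun _ => ∞} := by
    simp only [Set.ofPred_forall]
    refine isClosed_iInter fun n => ?_
    have : {x : Amb | x.1 n = true → x.2 n = fun _ => ∞} =
        {x : Amb | x.1 n = true}ᶜ ∪ {x : Amb | x.2 n = fun _ => ∞} := by
      ext x
      simp only [mem_ofPred_eq, mem_union, mem_compl_iff]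
      tauto
    rw [this]
    exact (isClopen_true n).compl.isClosed.union (isClosed_singleton.preimage (continuous_snd_at n))
  have h3 : IsClosed {x : Amb | ∀ n, x.1 n = true ∨ x.1 (n + 1) = true ∨ x.2 n = x.2 (n + 1)} := by
    simp only [Set.ofPred_forall]
    refine isClosed_iInter fun n => ?_
    exact (isClopen_true n).isClosed.union ((isClopen_true (n + 1)).isClosed.union
      (isClosed_eq (continuous_snd_at n) (continuous_snd_at (n + 1))))
  have h4 : IsClosed {x : Amb | ∀ m n, x.1 m = true → x.1 n = true → (3 : ℤ) ∣ m - n} := by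
    simp only [Set.ofPred_forall]
    refine isClosed_iInter fun m => isClosed_iInter fun n => ?_
    by_cases hd : (3 : ℤ) ∣ m - n
    · simp only [hd, implies_true, Set.ofPred_true]
      exact isClosed_univ
    · have : {x : Amb | x.1 m = true → x.1 n = true → (3 : ℤ) ∣ m - n} =
          ({x : Amb | x.1 m = true} ∩ {x : Amb | x.1 n = true})ᶜ := by
        ext x
        simp only [mem_ofPred_eq, mem_inter_iff, mem_compl_iff, hd]
        tauto
      rw [this]
      exact ((isClopen_true m).inter (isClopen_true n)).compl.isClosed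
  exact h1.inter (h2.inter (h3.inter h4))

/-- the space -/
abbrev X : Type := Xs

instance : CompactSpace X := isCompact_iff_compactSpace.1 isClosed_Xs.isCompact

/-- star-free points -/
def ι (u : ℤ → A) (hu : u ∈ Zs) : X :=
  ⟨(fun _ => false, fun _ => u), fun _ => hu, fun _ h => by simp at h, fun _ => Or.inr (Or.inr rfl),
    fun _ _ h => by simp at h⟩

/-- constant points -/
def cst (a : A) : X := ι (fun _ => a) (const_mem a)

instance : Nonempty X := ⟨cst ∞⟩

/-- gluing at `s` -/
noncomputable def glue (x y : Amb) (s : ℤ) : Amb :=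
  (fun n => if n < s then x.1 n else if n = s then true else y.1 n,
   fun n => if n < s then x.2 n else if n = s then fun _ => ∞ else y.2 n)

theorem glue_mem {x y : Amb} (hx : x ∈ Xs) (hy : y ∈ Xs) (s : ℤ)
    (hxs : ∀ n, x.1 n = true → (3 : ℤ) ∣ n - s) (hys : ∀ n, y.1 n = true → (3 : ℤ) ∣ n - s) :
    glue x y s ∈ Xs := by
  obtain ⟨hx1, hx2, hx3, hx4⟩ := hx
  obtain ⟨hy1, hy2, hy3, hy4⟩ := hy
  have hdiv : ∀ n, (glue x y s).1 n = true → (3 : ℤ) ∣ n - s := by
    intro n hn
    simp only [glue] at hn
    split_ifs at hn with h1 h2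
    · exact hxs n hn
    · rw [h2]; simp
    · exact hys n hn
  refine ⟨fun n => ?_, fun n hn => ?_, fun n => ?_, fun m n hm hn => ?_⟩
  · simp only [glue]
    split_ifs
    · exact hx1 n
    · exact const_mem _
    · exact hy1 n
  · simp only [glue] at hn ⊢
    split_ifs at hn ⊢
    · exact hx2 n hn
    · rfl
    · exact hy2 n hn
  · simp only [glue]
    rcases lt_trichotomy n s with h | h | h
    · rcases (show n + 1 < s ∨ n + 1 = s by omega) with h' | h'
      · simp only [h, h', if_true]
        exact hx3 n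
      · rw [if_pos h, if_neg (by omega), if_pos h']
        exact Or.inr (Or.inl rfl)
    · rw [if_neg (by omega), if_pos h]
      exact Or.inl rfl
    · rw [if_neg (by omega), if_neg (by omega), if_neg (by omega), if_neg (by omega),
        if_neg (by omega), if_neg (by omega), if_neg (by omega), if_neg (by omega)]
      exact hy3 n
  · have := dvd_sub (hdiv m hm) (hdiv n hn)
    have e : m - s - (n - s) = m - n := by ring
    rwa [e] at this

/-- the class of the resets -/
theorem exists_class {x : Amb} (hx : x ∈ Xs) : ∃ a : ℤ, ∀ n, x.1 n = true → (3 : ℤ) ∣ n - a := by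
  by_cases h : ∃ a, x.1 a = true
  · obtain ⟨a, ha⟩ := h
    exact ⟨a, fun n hn => hx.2.2.2 n a hn ha⟩
  · push Not at h
    exact ⟨0, fun n hn => absurd hn (h n)⟩

/-- basic neighbourhoods -/
theorem exists_window {x : X} {U : Set X} (hU : U ∈ 𝓝 x) :
    ∃ N : ℕ, ∀ y : X, (∀ n : ℤ, -N ≤ n → n ≤ N → y.1.1 n = x.1.1 n) →
      (∀ n k : ℤ, -N ≤ n → n ≤ N → -N ≤ k → k ≤ N → y.1.2 n k = x.1.2 n k) → y ∈ U := by
  by_contra hcon
  push Not at hcon
  choose y h1 h2 h3 using hcon
  have hlim : Tendsto y atTop (𝓝 x) := by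
    rw [tendsto_subtype_rng]
    refine Tendsto.prodMk_nhds ?_ ?_
    · rw [tendsto_pi_nhds]
      intro n
      refine tendsto_const_nhds.congr' ?_
      filter_upwards [eventually_ge_atTop n.natAbs] with N hN
      exact (h1 N n (by omega) (by omega)).symm
    · rw [tendsto_pi_nhds]
      intro n
      rw [tendsto_pi_nhds]
      intro k
      refine tendsto_const_nhds.congr' ?_
      filter_upwards [eventually_ge_atTop n.natAbs, eventually_ge_atTop k.natAbs] with N hN hN'
      exact (h2 N n k (by omega) (by omega) (by omega) (by omega)).symm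
  obtain ⟨N, hN⟩ := (hlim.eventually hU).exists
  exact h3 N hN

theorem exists_ge_dvd (N a : ℤ) : ∃ s : ℤ, N < s ∧ (3 : ℤ) ∣ a - s := by
  refine ⟨a + 3 * (|N - a| + 1), ?_, ⟨-(|N - a| + 1), by ring⟩⟩
  have := le_abs_self (N - a)
  have := abs_nonneg (N - a)
  linarith

theorem perfect (x : X) (U : Set X) (hU : IsOpen U) (hx : x ∈ U) : ∃ y ∈ U, y ≠ x := by
  obtain ⟨N, hN⟩ := exists_window (hU.mem_nhds hx)
  obtain ⟨a, ha⟩ := exists_class x.2
  obtain ⟨s, hs, hd⟩ := exists_ge_dvd N a
  have hxs : ∀ n, x.1.1 n = true → (3 : ℤ) ∣ n - s := by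
    intro n hn
    have := dvd_add (ha n hn) hd
    have e : n - a + (a - s) = n - s := by ring
    rwa [e] at this
  have hm : ∀ b : A, glue x.1 (cst b).1 s ∈ Xs := fun b =>
    glue_mem x.2 (cst b).2 s hxs (fun n hn => by simp [cst, ι] at hn)
  have hmU : ∀ b : A, (⟨_, hm b⟩ : X) ∈ U := by
    intro b
    apply hN
    · intro n h1 h2
      simp only [glue]
      rw [if_pos (by omega)]
    · intro n k h1 h2 _ _
      simp only [glue]
      rw [if_pos (by omega)]
  by_contra hcon
  push Not at hcon
  have h1 := hcon _ (hmU ∞)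
  have h2 := hcon _ (hmU (Ltr.v 0 : A))
  have h4 : glue x.1 (cst ∞).1 s = glue x.1 (cst (Ltr.v 0 : A)).1 s :=
    congrArg Subtype.val (h1.trans h2.symm)
  have h3 : (glue x.1 (cst ∞).1 s).2 (s + 1) 0 = (glue x.1 (cst (Ltr.v 0 : A)).1 s).2 (s + 1) 0 := by
    rw [h4]
  simp only [glue, cst, ι] at h3
  rw [if_neg (by omega), if_neg (by omega), if_neg (by omega), if_neg (by omega)] at h3
  exact OnePoint.infty_ne_coe _ h3

open Classical in
/-- the coordinates -/
noncomputable def coord (x : X) : ℤ ⊕ (ℤ × ℤ × Ltr) → Bool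
  | Sum.inl n => x.1.1 n
  | Sum.inr (n, k, l) => decide (x.1.2 n k = (l : A))

open Classical in
theorem continuous_coord (j : ℤ ⊕ (ℤ × ℤ × Ltr)) : Continuous fun x : X => coord x j := by
  rcases j with n | ⟨n, k, l⟩
  · exact (continuous_fst_at n).comp continuous_subtype_val
  · have h1 : Continuous fun x : X => x.1.2 n k :=
      (continuous_apply k).comp ((continuous_snd_at n).comp continuous_subtype_val)
    have h2 : IsClopen ({(l : A)} : Set A) := ⟨isClosed_singleton, isOpen_coe l⟩
    have h3 : Continuous fun a : A => decide (a = (l : A)) := by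
      rw [continuous_discrete_rng]
      intro b
      cases b
      · have : (fun a : A => decide (a = (l : A))) ⁻¹' {false} = ({(l : A)} : Set A)ᶜ := by
          ext a; simp
        rw [this]
        exact h2.compl.isOpen
      · have : (fun a : A => decide (a = (l : A))) ⁻¹' {true} = ({(l : A)} : Set A) := by
          ext a; simp
        rw [this]
        exact h2.isOpen
    exact h3.comp h1

theorem coord_injective {x y : X} (h : ∀ j, coord x j = coord y j) : x = y := by
  apply Subtype.ext
  refine Prod.ext (funext fun n => h (Sum.inl n)) (funext fun n => funext fun k => ?_)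
  have h1 : ∀ l : Ltr, x.1.2 n k = (l : A) ↔ y.1.2 n k = (l : A) := by
    intro l
    have := h (Sum.inr (n, k, l))
    simp only [coord, decide_eq_decide] at this
    exact this
  generalize x.1.2 n k = a at h1
  generalize y.1.2 n k = b at h1
  induction a using OnePoint.rec with
  | infty =>
    induction b using OnePoint.rec with
    | infty => rfl
    | coe l => exact (h1 l).2 rfl
  | coe l => exact ((h1 l).1 rfl).symm

theorem exists_homeo : Nonempty (X ≃ₜ (ℕ → Bool)) := by
  letI := Encodable.ofCountable (ℤ ⊕ (ℤ × ℤ × Ltr))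
  let e : X → (ℕ → Bool) := fun x n => match Encodable.decode (α := ℤ ⊕ (ℤ × ℤ × Ltr)) n with
    | Option.some j => coord x j
    | Option.none => false
  refine Pool.Agent.H812R3.CantorChar.cantor_char e ?_ ?_ ?_
  · refine continuous_pi fun n => ?_
    change Continuous fun x : X => (match Encodable.decode (α := ℤ ⊕ (ℤ × ℤ × Ltr)) n with
      | Option.some j => coord x j
      | Option.none => false)
    rcases Encodable.decode (α := ℤ ⊕ (ℤ × ℤ × Ltr)) n with _ | j
    · exact continuous_const
    · exact continuous_coord j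
  · intro x y hxy
    apply coord_injective
    intro j
    have := congrFun hxy (Encodable.encode j)
    simp only [e, Encodable.encodek] at this
    exact this
  · intro x U hU hx
    obtain ⟨y, hy, hne⟩ := perfect x U hU hx
    exact ⟨y, hy, hne⟩

/-- the shift -/
def sh (m : ℤ) (x : X) : X :=
  ⟨(fun n => x.1.1 (n + m), fun n k => x.1.2 (n + m) (k + m)),
    fun n => shift_mem (x.2.1 (n + m)) m,
    fun n hn => by
      have h : x.1.2 (n + m) = fun _ => ∞ := x.2.2.1 (n + m) hn
      show (fun k => x.1.2 (n + m) (k + m)) = fun _ => ∞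
      rw [h],
    fun n => by
      have e : n + 1 + m = n + m + 1 := by ring
      rcases x.2.2.2.1 (n + m) with h | h | h
      · exact Or.inl h
      · refine Or.inr (Or.inl ?_)
        show x.1.1 (n + 1 + m) = true
        rw [e]; exact h
      · refine Or.inr (Or.inr ?_)
        show (fun k => x.1.2 (n + m) (k + m)) = fun k => x.1.2 (n + 1 + m) (k + m)
        rw [e, h],
    fun i n hi hn => by
      have h := x.2.2.2.2 (i + m) (n + m) hi hn
      have e : i + m - (n + m) = i - n := by ring
      rwa [e] at h⟩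

theorem sh_fst (m : ℤ) (x : X) (n : ℤ) : (sh m x).1.1 n = x.1.1 (n + m) := rfl

theorem sh_snd (m : ℤ) (x : X) (n k : ℤ) : (sh m x).1.2 n k = x.1.2 (n + m) (k + m) := rfl

theorem X_ext {x y : X} (h1 : ∀ n, x.1.1 n = y.1.1 n) (h2 : ∀ n k, x.1.2 n k = y.1.2 n k) : x = y :=
  Subtype.ext (Prod.ext (funext h1) (funext fun n => funext fun k => h2 n k))

theorem continuous_at (n k : ℤ) : Continuous fun x : X => x.1.2 n k :=
  (continuous_apply k).comp ((continuous_snd_at n).comp continuous_subtype_val)

theorem continuous_rng {Y : Type} [TopologicalSpace Y] {f : Y → X}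
    (h1 : ∀ n, Continuous fun y => (f y).1.1 n) (h2 : ∀ n k, Continuous fun y => (f y).1.2 n k) :
    Continuous f :=
  Continuous.subtype_mk ((continuous_pi h1).prodMk
    (continuous_pi fun n => continuous_pi fun k => h2 n k)) _

theorem continuous_sh (m : ℤ) : Continuous (sh m) :=
  continuous_rng (fun n => (continuous_fst_at (n + m)).comp continuous_subtype_val)
    (fun n k => continuous_at (n + m) (k + m))

theorem sh_sh (m m' : ℤ) (x : X) : sh m (sh m' x) = sh (m + m') x := by
  refine X_ext (fun n => ?_) (fun n k => ?_)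
  · simp only [sh_fst, add_assoc]
  · simp only [sh_snd, add_assoc]

theorem sh_zero (x : X) : sh 0 x = x := by
  refine X_ext (fun n => ?_) (fun n k => ?_)
  · simp only [sh_fst, add_zero]
  · simp only [sh_snd, add_zero]

/-- the letterwise map -/
def mp (e : Ltr ≃ Ltr) (he : Gd e) (x : X) : X :=
  ⟨(x.1.1, fun n k => em e (x.1.2 n k)),
    fun n => em_mem he (x.2.1 n),
    fun n hn => by
      have h := x.2.2.1 n hn
      show (fun k => em e (x.1.2 n k)) = fun _ => ∞
      rw [h]; rfl,
    fun n => by
      rcases x.2.2.2.1 n with h | h | h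
      · exact Or.inl h
      · exact Or.inr (Or.inl h)
      · refine Or.inr (Or.inr ?_)
        show (fun k => em e (x.1.2 n k)) = fun k => em e (x.1.2 (n + 1) k)
        rw [h],
    x.2.2.2.2⟩

theorem mp_fst (e : Ltr ≃ Ltr) (he : Gd e) (x : X) (n : ℤ) : (mp e he x).1.1 n = x.1.1 n := rfl

theorem mp_snd (e : Ltr ≃ Ltr) (he : Gd e) (x : X) (n k : ℤ) :
    (mp e he x).1.2 n k = em e (x.1.2 n k) := rfl

theorem continuous_at_fst (n : ℤ) : Continuous fun x : X => x.1.1 n :=
  (continuous_fst_at n).comp continuous_subtype_val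

theorem continuous_mp (e : Ltr ≃ Ltr) (he : Gd e) : Continuous (mp e he) :=
  continuous_rng (fun n => continuous_at_fst n)
    (fun n k => (em e).continuous.comp (continuous_at n k))

theorem mp_symm_mp (e : Ltr ≃ Ltr) (he : Gd e) (x : X) : mp e.symm he.symm (mp e he x) = x := by
  refine X_ext (fun n => rfl) (fun n k => ?_)
  simp only [mp_snd, ← em_trans, Equiv.self_trans_symm, em_refl]

theorem mp_mp_symm (e : Ltr ≃ Ltr) (he : Gd e) (x : X) : mp e he (mp e.symm he.symm x) = x := by
  refine X_ext (fun n => rfl) (fun n k => ?_)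
  simp only [mp_snd, ← em_trans, Equiv.symm_trans_self, em_refl]

theorem mp_sh (e : Ltr ≃ Ltr) (he : Gd e) (m : ℤ) (x : X) : mp e he (sh m x) = sh m (mp e he x) := rfl

/-- the homeomorphism of a bijection of the letters -/
def T (e : Ltr ≃ Ltr) (he : Gd e) : X ≃ₜ X where
  toFun x := sh 1 (mp e he x)
  invFun x := mp e.symm he.symm (sh (-1) x)
  left_inv x := by
    show mp e.symm he.symm (sh (-1) (sh 1 (mp e he x))) = x
    rw [sh_sh, neg_add_cancel, sh_zero, mp_symm_mp]
  right_inv x := by
    show sh 1 (mp e he (mp e.symm he.symm (sh (-1) x))) = x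
    rw [mp_mp_symm, sh_sh, add_neg_cancel, sh_zero]
  continuous_toFun := (continuous_sh 1).comp (continuous_mp e he)
  continuous_invFun := (continuous_mp e.symm he.symm).comp (continuous_sh (-1))

theorem T_apply (e : Ltr ≃ Ltr) (he : Gd e) (x : X) : T e he x = sh 1 (mp e he x) := rfl

theorem iter_fst (e : Ltr ≃ Ltr) (he : Gd e) (m : ℕ) (x : X) (n : ℤ) :
    ((T e he)^[m] x).1.1 n = x.1.1 (n + m) := by
  induction m generalizing x n with
  | zero => simp
  | succ m ih =>
    have e1 : n + 1 + m = n + ((m + 1 : ℕ) : ℤ) := by push_cast; ring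
    rw [iterate_succ_apply', T_apply, sh_fst, mp_fst, ih, e1]

theorem iter_snd (e : Ltr ≃ Ltr) (he : Gd e) (m : ℕ) (x : X) (n k : ℤ) :
    ((T e he)^[m] x).1.2 n k = (em e)^[m] (x.1.2 (n + m) (k + m)) := by
  induction m generalizing x n k with
  | zero => simp
  | succ m ih =>
    rw [iterate_succ_apply', T_apply, sh_snd, mp_snd, ih, iterate_succ_apply']
    have e1 : n + 1 + m = n + ((m + 1 : ℕ) : ℤ) := by push_cast; ring
    have e2 : k + 1 + m = k + ((m + 1 : ℕ) : ℤ) := by push_cast; ring
    rw [e1, e2]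

theorem em_iter_even (e : Ltr ≃ Ltr) (h2 : ∀ x, e (e x) = x) (m : ℕ) (a : A) :
    (em e)^[2 * m] a = a := by
  rw [iterate_mul]
  have h3 : (em e)^[2] = id := by
    funext b
    show em e (em e b) = b
    induction b using OnePoint.rec with
    | infty => rfl
    | coe x => rw [em_coe, em_coe, h2]
  rw [h3, iterate_id]
  rfl

theorem iter_even (e : Ltr ≃ Ltr) (he : Gd e) (h2 : ∀ x, e (e x) = x) (m : ℕ) (x : X) :
    (T e he)^[2 * m] x = sh ((2 * m : ℕ) : ℤ) x := by
  refine X_ext (fun n => ?_) (fun n k => ?_)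
  · rw [iter_fst, sh_fst]
  · rw [iter_snd, sh_snd, em_iter_even e h2]

/-- the homeomorphisms are topologically transitive -/
theorem transitive (e : Ltr ≃ Ltr) (he : Gd e) (h2 : ∀ x, e (e x) = x) {U V : Set X}
    (hU : IsOpen U) (hV : IsOpen V) (hUne : U.Nonempty) (hVne : V.Nonempty) :
    ∃ m : ℕ, ∃ x ∈ U, (T e he)^[m] x ∈ V := by
  obtain ⟨x, hx⟩ := hUne
  obtain ⟨y, hy⟩ := hVne
  obtain ⟨N, hN⟩ := exists_window (hU.mem_nhds hx)
  obtain ⟨M, hM⟩ := exists_window (hV.mem_nhds hy)
  obtain ⟨a, ha⟩ := exists_class x.2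
  obtain ⟨b, hb⟩ := exists_class y.2
  obtain ⟨s, hs, hd⟩ := exists_ge_dvd N a
  -- a large even `m` with `b + m ≡ s`
  obtain ⟨m, hm1, hm2⟩ : ∃ m : ℕ, s + M < 2 * m ∧ (3 : ℤ) ∣ b + 2 * m - s := by
    obtain ⟨r, hr1, hr2⟩ := exists_ge_dvd (s + M + 1) (s - b)
    refine ⟨(2 * r).toNat, by omega, ?_⟩
    omega
  set z : X := sh (-(2 * m : ℤ)) y with hz
  have hxs : ∀ n, x.1.1 n = true → (3 : ℤ) ∣ n - s := by
    intro n hn
    have := ha n hn
    omega
  have hzs : ∀ n, z.1.1 n = true → (3 : ℤ) ∣ n - s := by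
    intro n hn
    have := hb _ hn
    omega
  let w : X := ⟨glue x.1 z.1 s, glue_mem x.2 z.2 s hxs hzs⟩
  refine ⟨2 * m, w, hN w ?_ ?_, ?_⟩
  · intro n h1 h3
    show (glue x.1 z.1 s).1 n = _
    simp only [glue]
    rw [if_pos (by omega)]
  · intro n k h1 h3 _ _
    show (glue x.1 z.1 s).2 n k = _
    simp only [glue]
    rw [if_pos (by omega)]
  · rw [iter_even e he h2]
    apply hM
    · intro n h1 h3
      rw [sh_fst]
      show (glue x.1 z.1 s).1 _ = _
      simp only [glue]
      push_cast
      have e1 : n + 2 * (m : ℤ) + -(2 * m) = n := by ring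
      rw [if_neg (by omega), if_neg (by omega), hz, sh_fst, e1]
    · intro n k h1 h3 _ _
      rw [sh_snd]
      show (glue x.1 z.1 s).2 _ _ = _
      simp only [glue]
      push_cast
      have e1 : n + 2 * (m : ℤ) + -(2 * m) = n := by ring
      have e2 : k + 2 * (m : ℤ) + -(2 * m) = k := by ring
      rw [if_neg (by omega), if_neg (by omega), hz, sh_snd, e1, e2]

end Pool.Agent.X219.CH
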