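import Pool.Agent.X219.CH.Homeo

/-!
Conjugacy of homeomorphisms of the Cantor space reduces to an action of the permutations of `ℕ`
(Stone duality).
-/

set_option autoImplicit false
set_option linter.unusedSectionVars false

open Set Filter Topology Function
open TopologicalSpace (Clopens)

namespace Pool.Agent.X219.CH

attribute [local instance] homeoTop homeoBorel
attribute [local instance] Pool.Agent.X219.Sinf.permTop Pool.Agent.X219.Sinf.permBorel
  Pool.Agent.X219.Sinf.borelSpace_perm Pool.Agent.X219.Sinf.polish_perm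

theorem eq_of_clopens {x y : Can} (h : ∀ U : Clopens Can, x ∈ U → y ∈ U) : y = x := by
  funext n
  have hU : IsClopen {z : Can | z n = x n} := (isClopen_discrete {x n}).preimage (continuous_apply n)
  exact h ⟨_, hU⟩ rfl

theorem exists_pt (Ψ : Clopens Can ≃o Clopens Can) (x : Can) :
    ∃ y : Can, ∀ U : Clopens Can, x ∈ U → y ∈ Ψ U := by
  have : Nonempty {U : Clopens Can // x ∈ U} := ⟨⟨⊤, trivial⟩⟩
  have h := IsCompact.nonempty_iInter_of_directed_nonempty_isCompact_isClosed
    (fun U : {U : Clopens Can // x ∈ U} => ((Ψ U.1 : Clopens Can) : Set Can))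
    (fun U V => ⟨⟨U.1 ⊓ V.1, U.2, V.2⟩, by
      constructor
      · exact Ψ.monotone inf_le_left
      · exact Ψ.monotone inf_le_right⟩)
    (fun U => by
      rw [nonempty_iff_ne_empty]
      intro h0
      have h1 : Ψ U.1 = ⊥ := by
        apply Clopens.ext
        exact h0
      have h2 : U.1 = ⊥ := by
        apply Ψ.injective
        rw [h1, Ψ.map_bot]
      have h3 := U.2
      rw [h2] at h3
      exact h3)
    (fun U => (Ψ U.1).isClopen.isClosed.isCompact) (fun U => (Ψ U.1).isClopen.isClosed)
  obtain ⟨y, hy⟩ := h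
  refine ⟨y, fun U hU => ?_⟩
  have := mem_iInter.1 hy ⟨U, hU⟩
  exact this

/-- Stone duality for the Cantor space -/
theorem exists_homeo_of_orderIso (Ψ : Clopens Can ≃o Clopens Can) :
    ∃ h : Can ≃ₜ Can, ∀ U : Clopens Can, ((Ψ U : Clopens Can) : Set Can) = h '' (U : Set Can) := by
  choose h hh using exists_pt Ψ
  choose g hg using exists_pt Ψ.symm
  have hgh : ∀ x, g (h x) = x := by
    intro x
    refine eq_of_clopens fun U hU => ?_
    have := hg (h x) (Ψ U) (hh x U hU)
    rwa [Ψ.symm_apply_apply] at this
  have hhg : ∀ x, h (g x) = x := by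
    intro x
    refine eq_of_clopens fun U hU => ?_
    have := hh (g x) (Ψ.symm U) (hg x U hU)
    rwa [Ψ.apply_symm_apply] at this
  have hc : ∀ (Ψ : Clopens Can ≃o Clopens Can) (h g : Can → Can),
      (∀ x U, x ∈ U → h x ∈ Ψ U) → (∀ x U, x ∈ U → g x ∈ Ψ.symm U) → (∀ x, g (h x) = x) →
      Continuous h := by
    intro Ψ h g hh hg hgh
    rw [(loc_compact_Haus_tot_disc_of_zero_dim (H := Can)).continuous_iff]
    intro V hV
    have : h ⁻¹' V = ((Ψ.symm ⟨V, hV⟩ : Clopens Can) : Set Can) := by
      ext x
      constructor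
      · intro hx
        have := hg (h x) ⟨V, hV⟩ hx
        rwa [hgh] at this
      · intro hx
        have := hh x _ hx
        rw [Ψ.apply_symm_apply] at this
        exact this
    rw [this]
    exact (Ψ.symm ⟨V, hV⟩).isClopen.isOpen
  refine ⟨{ toFun := h, invFun := g, left_inv := hgh, right_inv := hhg,
            continuous_toFun := hc Ψ h g hh hg hgh,
            continuous_invFun := hc Ψ.symm g h hg hh hhg }, fun U => ?_⟩
  ext y
  constructor
  · intro hy
    refine ⟨g y, ?_, hhg y⟩
    have := hg y _ hy
    rwa [Ψ.symm_apply_apply] at this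
  · rintro ⟨x, hx, rfl⟩
    exact hh x U hx

instance infinite_clopens : Infinite (Clopens Can) := by
  have hU : ∀ n, IsClopen {z : Can | z n = true} := fun n =>
    (isClopen_discrete {true}).preimage (continuous_apply n)
  refine Infinite.of_injective (fun n : ℕ => (⟨{z : Can | z n = true}, hU n⟩ : Clopens Can)) ?_
  intro m n h
  by_contra hne
  have h1 : {z : Can | z m = true} = {z : Can | z n = true} := congrArg Clopens.carrier h
  have h2 : (fun k => decide (k = m) : Can) ∈ {z : Can | z m = true} := by simp
  rw [h1] at h2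
  simp at h2
  exact hne h2.symm

/-- an enumeration of the clopen sets -/
noncomputable def β : ℕ ≃ Clopens Can := (nonempty_denumerable (Clopens Can)).some.eqv.symm

/-- pairs of binary relations on `ℕ` -/
def W : Type := (ℕ → ℕ → Bool) × (ℕ → ℕ → Bool)

instance : MeasurableSpace W := inferInstanceAs (MeasurableSpace ((ℕ → ℕ → Bool) × (ℕ → ℕ → Bool)))
instance : StandardBorelSpace W :=
  inferInstanceAs (StandardBorelSpace ((ℕ → ℕ → Bool) × (ℕ → ℕ → Bool)))

instance : MulAction (Equiv.Perm ℕ) W where
  smul g w := (fun m n => w.1 (g.symm m) (g.symm n), fun m n => w.2 (g.symm m) (g.symm n))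
  one_smul _ := rfl
  mul_smul _ _ _ := rfl

theorem smul_fst (g : Equiv.Perm ℕ) (w : W) (m n : ℕ) :
    (g • w).1 m n = w.1 (g.symm m) (g.symm n) := rfl

theorem smul_snd (g : Equiv.Perm ℕ) (w : W) (m n : ℕ) :
    (g • w).2 m n = w.2 (g.symm m) (g.symm n) := rfl

theorem measurable_W {Y : Type} [MeasurableSpace Y] {f : Y → W}
    (h1 : ∀ m n, Measurable fun y => (f y).1 m n) (h2 : ∀ m n, Measurable fun y => (f y).2 m n) :
    Measurable f := by
  have h3 : Measurable fun y => (f y).1 :=
    measurable_pi_lambda _ fun m => measurable_pi_lambda _ fun n => h1 m n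
  have h4 : Measurable fun y => (f y).2 :=
    measurable_pi_lambda _ fun m => measurable_pi_lambda _ fun n => h2 m n
  exact h3.prodMk h4

theorem measurable_smul_W : Measurable fun p : Equiv.Perm ℕ × W => p.1 • p.2 := by
  have key : ∀ (c : W → ℕ → ℕ → Bool) (_ : ∀ i j, Measurable fun w => c w i j) (m n : ℕ),
      Measurable fun p : Equiv.Perm ℕ × W => c p.2 (p.1.symm m) (p.1.symm n) := by
    intro c hc m n
    have h1 : Measurable fun p : Equiv.Perm ℕ × W => ((p.1.symm m, p.1.symm n), p.2) := by
      refine Measurable.prodMk (Measurable.prodMk ?_ ?_) measurable_snd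
      · exact (Pool.Agent.X219.Sinf.continuous_symm_at m).measurable.comp measurable_fst
      · exact (Pool.Agent.X219.Sinf.continuous_symm_at n).measurable.comp measurable_fst
    have h2 : Measurable fun q : (ℕ × ℕ) × W => c q.2 q.1.1 q.1.2 :=
      measurable_from_prod_countable_right fun x => hc x.1 x.2
    exact h2.comp h1
  have hf : Measurable fun w : W => (w.1 : ℕ → ℕ → Bool) := measurable_fst
  have hs : Measurable fun w : W => (w.2 : ℕ → ℕ → Bool) := measurable_snd
  refine measurable_W (fun m n => ?_) (fun m n => ?_)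
  · exact key (fun w => w.1) (fun i j => (measurable_pi_apply j).comp ((measurable_pi_apply i).comp hf))
      m n
  · exact key (fun w => w.2) (fun i j => (measurable_pi_apply j).comp ((measurable_pi_apply i).comp hs))
      m n

open Classical in
/-- the structure of a homeomorphism -/
noncomputable def st (S : Can ≃ₜ Can) : W :=
  (fun m n => decide (β m ≤ β n), fun m n => decide (S '' (β m : Set Can) = (β n : Set Can)))

theorem measurable_st : Measurable st := by
  classical
  refine measurable_W (fun m n => measurable_const) (fun m n => measurable_to_bool ?_)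
  have h1 : (fun S : Can ≃ₜ Can => (st S).2 m n) ⁻¹' {true} =
      (fun h : Can ≃ₜ Can => (⟨h, h.continuous⟩ : C(Can, Can))) ⁻¹'
        ({f : C(Can, Can) | MapsTo f (β m : Set Can) (β n : Set Can)} ∩
          {f : C(Can, Can) | MapsTo f (β m : Set Can)ᶜ (β n : Set Can)ᶜ}) := by
    ext S
    simp only [st, mem_preimage, mem_singleton_iff, decide_eq_true_eq, mem_inter_iff, mem_ofPred_eq]
    constructor
    · intro h
      refine ⟨fun x hx => ?_, fun x hx hx2 => ?_⟩
      · rw [← h]
        exact ⟨x, hx, rfl⟩
      · have hx3 : S x ∈ (β n : Set Can) := hx2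
        rw [← h] at hx3
        obtain ⟨z, hz, hz2⟩ := hx3
        rw [S.injective hz2] at hz
        exact hx hz
    · rintro ⟨h2, h3⟩
      ext y
      constructor
      · rintro ⟨x, hx, rfl⟩
        exact h2 hx
      · intro hy
        refine ⟨S.symm y, ?_, S.apply_symm_apply y⟩
        by_contra hcon
        have := h3 hcon
        exact this (by
          show S (S.symm y) ∈ (β n : Set Can)
          rw [S.apply_symm_apply]; exact hy)
  rw [h1]
  have h2 : IsOpen ({f : C(Can, Can) | MapsTo f (β m : Set Can) (β n : Set Can)} ∩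
          {f : C(Can, Can) | MapsTo f (β m : Set Can)ᶜ (β n : Set Can)ᶜ}) :=
    (ContinuousMap.isOpen_setOfPred_mapsTo (β m).isClopen.isClosed.isCompact (β n).isClopen.isOpen).inter
      (ContinuousMap.isOpen_setOfPred_mapsTo (β m).isClopen.compl.isClosed.isCompact
        (β n).isClopen.compl.isOpen)
  exact MeasurableSpace.measurableSet_generateFrom (isOpen_induced h2)

/-- the action of a homeomorphism on the clopen sets -/
def cm (h : Can ≃ₜ Can) : Clopens Can ≃ Clopens Can where
  toFun U := ⟨h '' (U : Set Can), (h.isClosedMap _ U.isClopen.isClosed), (h.isOpenMap _ U.isClopen.isOpen)⟩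
  invFun U := ⟨h.symm '' (U : Set Can), (h.symm.isClosedMap _ U.isClopen.isClosed),
    (h.symm.isOpenMap _ U.isClopen.isOpen)⟩
  left_inv U := by
    apply Clopens.ext
    show h.symm '' (h '' (U : Set Can)) = U
    rw [← image_comp]
    simp
  right_inv U := by
    apply Clopens.ext
    show h '' (h.symm '' (U : Set Can)) = U
    rw [← image_comp]
    simp

theorem cm_le (h : Can ≃ₜ Can) (U V : Clopens Can) : cm h U ≤ cm h V ↔ U ≤ V := by
  show h '' (U : Set Can) ⊆ h '' (V : Set Can) ↔ (U : Set Can) ⊆ V
  exact image_subset_image_iff h.injective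

theorem conj_iff_orbit (S S' : Can ≃ₜ Can) :
    (∃ h : Can ≃ₜ Can, S' = h * S * h⁻¹) ↔ ∃ g : Equiv.Perm ℕ, g • st S = st S' := by
  classical
  constructor
  · rintro ⟨h, rfl⟩
    refine ⟨(β.trans (cm h)).trans β.symm, ?_⟩
    have hs : ∀ m, β (((β.trans (cm h)).trans β.symm).symm m) = (cm h).symm (β m) := by
      intro m
      simp
    have hle : ∀ U V : Clopens Can, (cm h).symm U ≤ (cm h).symm V ↔ U ≤ V := by
      intro U V
      rw [← cm_le h, Equiv.apply_symm_apply, Equiv.apply_symm_apply]
    refine Prod.ext (funext fun m => funext fun n => ?_) (funext fun m => funext fun n => ?_)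
    · rw [smul_fst]
      show decide (β _ ≤ β _) = decide (β m ≤ β n)
      rw [hs, hs, decide_eq_decide]
      exact hle _ _
    · rw [smul_snd]
      show decide (S '' (β _ : Set Can) = (β _ : Set Can)) =
        decide (⇑(h * S * h⁻¹) '' (β m : Set Can) = (β n : Set Can))
      rw [hs, hs, decide_eq_decide]
      show S '' (h.symm '' (β m : Set Can)) = h.symm '' (β n : Set Can) ↔ _
      have e1 : ⇑(h * S * h⁻¹) '' (β m : Set Can) = h '' (S '' (h.symm '' (β m : Set Can))) := by
        rw [← image_comp, ← image_comp]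
        rfl
      rw [e1]
      constructor
      · intro h1
        rw [h1, ← image_comp]
        simp
      · intro h1
        rw [← h1, ← image_comp h.symm h]
        simp
  · rintro ⟨g, hg⟩
    have h1 : ∀ m n, β (g.symm m) ≤ β (g.symm n) ↔ β m ≤ β n := by
      intro m n
      have := congrFun (congrFun (congrArg Prod.fst hg) m) n
      rw [smul_fst] at this
      exact decide_eq_decide.1 this
    have h2 : ∀ m n, S '' (β (g.symm m) : Set Can) = (β (g.symm n) : Set Can) ↔
        S' '' (β m : Set Can) = (β n : Set Can) := by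
      intro m n
      have := congrFun (congrFun (congrArg Prod.snd hg) m) n
      rw [smul_snd] at this
      exact decide_eq_decide.1 this
    let Ψ : Clopens Can ≃o Clopens Can :=
      { toEquiv := (β.symm.trans g).trans β
        map_rel_iff' := by
          intro U V
          show β (g (β.symm U)) ≤ β (g (β.symm V)) ↔ U ≤ V
          rw [← h1, g.symm_apply_apply, g.symm_apply_apply, β.apply_symm_apply, β.apply_symm_apply] }
    obtain ⟨h, hh⟩ := exists_homeo_of_orderIso Ψ
    have h3 : ∀ m, h '' (β (g.symm m) : Set Can) = (β m : Set Can) := by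
      intro m
      rw [← hh]
      show ((β (g (β.symm (β (g.symm m)))) : Clopens Can) : Set Can) = _
      rw [β.symm_apply_apply, g.apply_symm_apply]
    refine ⟨h, ?_⟩
    rw [eq_mul_inv_iff_mul_eq]
    ext1 x
    show S' (h x) = h (S x)
    symm
    refine eq_of_clopens fun V hV => ?_
    -- `V` contains `S' (h x)`
    obtain ⟨n, rfl⟩ := β.surjective V
    obtain ⟨m, hm⟩ := β.surjective ((cm S').symm (β n))
    have h4 : S' '' (β m : Set Can) = (β n : Set Can) := by
      have : cm S' (β m) = β n := by rw [hm, Equiv.apply_symm_apply]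
      exact congrArg (fun U : Clopens Can => (U : Set Can)) this
    have h5 := (h2 m n).2 h4
    have h6 : h x ∈ (β m : Set Can) := by
      have : S' (h x) ∈ S' '' (β m : Set Can) := by rw [h4]; exact hV
      obtain ⟨z, hz, hz2⟩ := this
      rwa [S'.injective hz2] at hz
    have h7 : x ∈ (β (g.symm m) : Set Can) := by
      rw [← h3] at h6
      obtain ⟨z, hz, hz2⟩ := h6
      rwa [h.injective hz2] at hz
    have h8 : S x ∈ (β (g.symm n) : Set Can) := by
      rw [← h5]; exact ⟨x, h7, rfl⟩
    have h9 : h (S x) ∈ (β n : Set Can) := by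
      rw [← h3]; exact ⟨S x, h8, rfl⟩
    exact h9

end Pool.Agent.X219.CH
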